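import Mathlib
set_option autoImplicit false
namespace Helper650_UB

/-- The set of `j` with `p j * q j < 1/2 - θ` (resp. `> 1/2 + θ`) has fewer than `θ N` elements
(if it had at least `θ N > 0` elements, take it as `J`: contradiction); so all `j` but at most `2 θ N` satisfy `|p q - 1/2| ≤ θ`. -/
theorem few_exceptions {α : Type} [Fintype α] [DecidableEq α] (p q : α → ℝ) (θ : ℝ) (hθ : 0 < θ)
    (h : ∀ J : Finset α, θ * (Fintype.card α : ℝ) ≤ (J.card : ℝ) → |∑ j ∈ J, (1 / 2 - p j * q j)| ≤ θ * J.card) :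
    ((Finset.univ.filter (fun j => ¬ |p j * q j - 1 / 2| ≤ θ)).card : ℝ) ≤ 2 * θ * Fintype.card α := by
  classical
  have hN : (0 : ℝ) ≤ Fintype.card α := Nat.cast_nonneg _
  have hA : ((Finset.univ.filter (fun j => p j * q j < 1 / 2 - θ)).card : ℝ) ≤ θ * Fintype.card α := by
    by_contra hlt
    push Not at hlt
    set A := Finset.univ.filter (fun j => p j * q j < 1 / 2 - θ) with hAdef
    have h1 := h A hlt.le
    have hpos : (0 : ℝ) < A.card := lt_of_le_of_lt (by positivity) hlt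
    have hne : A.Nonempty := Finset.card_pos.1 (by exact_mod_cast hpos)
    have h2 : ∑ _j ∈ A, θ < ∑ j ∈ A, (1 / 2 - p j * q j) := by
      apply Finset.sum_lt_sum_of_nonempty hne
      intro j hj
      rw [hAdef, Finset.mem_filter] at hj
      linarith [hj.2]
    rw [Finset.sum_const, nsmul_eq_mul] at h2
    have h3 := le_abs_self (∑ j ∈ A, (1 / 2 - p j * q j))
    linarith
  have hB : ((Finset.univ.filter (fun j => 1 / 2 + θ < p j * q j)).card : ℝ) ≤ θ * Fintype.card α := by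
    by_contra hlt
    push Not at hlt
    set A := Finset.univ.filter (fun j => 1 / 2 + θ < p j * q j) with hAdef
    have h1 := h A hlt.le
    have hpos : (0 : ℝ) < A.card := lt_of_le_of_lt (by positivity) hlt
    have hne : A.Nonempty := Finset.card_pos.1 (by exact_mod_cast hpos)
    have h2 : ∑ j ∈ A, (1 / 2 - p j * q j) < ∑ _j ∈ A, (-θ) := by
      apply Finset.sum_lt_sum_of_nonempty hne
      intro j hj
      rw [hAdef, Finset.mem_filter] at hj
      linarith [hj.2]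
    rw [Finset.sum_const, nsmul_eq_mul] at h2
    have h3 := neg_abs_le (∑ j ∈ A, (1 / 2 - p j * q j))
    linarith
  have hsub : Finset.univ.filter (fun j => ¬ |p j * q j - 1 / 2| ≤ θ) ⊆
      Finset.univ.filter (fun j => p j * q j < 1 / 2 - θ) ∪ Finset.univ.filter (fun j => 1 / 2 + θ < p j * q j) := by
    intro j hj
    rw [Finset.mem_filter, abs_le, not_and_or, not_le, not_le] at hj
    rw [Finset.mem_union, Finset.mem_filter, Finset.mem_filter]
    rcases hj.2 with h1 | h1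
    · left; exact ⟨Finset.mem_univ _, by linarith⟩
    · right; exact ⟨Finset.mem_univ _, by linarith⟩
  have hc := (Finset.card_le_card hsub).trans (Finset.card_union_le _ _)
  have hc' : ((Finset.univ.filter (fun j => ¬ |p j * q j - 1 / 2| ≤ θ)).card : ℝ) ≤
      ((Finset.univ.filter (fun j => p j * q j < 1 / 2 - θ)).card : ℝ) +
        ((Finset.univ.filter (fun j => 1 / 2 + θ < p j * q j)).card : ℝ) := by exact_mod_cast hc
  linarith

/-- `p^2 (q r) = (p q) (p r)`, so `|p^2 - 1/2| ≤ 6 θ` and `|p - 1/√2| ≤ 9 θ`. -/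
theorem close_of_products (p q r θ : ℝ) (hθ : 0 < θ) (hθ8 : θ ≤ 1 / 8) (hp : 0 ≤ p) (hq : 0 ≤ q) (hr : 0 ≤ r)
    (h1 : |p * q - 1 / 2| ≤ θ) (h2 : |q * r - 1 / 2| ≤ θ) (h3 : |p * r - 1 / 2| ≤ θ) :
    |p - √2 / 2| ≤ 9 * θ := by
  have hs : √2 * √2 = 2 := Real.mul_self_sqrt (by norm_num)
  have hs1 : 1 ≤ √2 := by
    rw [Real.one_le_sqrt]; norm_num
  rw [abs_le] at h1 h2 h3
  obtain ⟨a1, a2⟩ := h1
  obtain ⟨b1, b2⟩ := h2
  obtain ⟨c1, c2⟩ := h3
  have key : p ^ 2 * (q * r) = (p * q) * (p * r) := by ring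
  set a := p * q with ha
  set b := q * r with hb
  set c := p * r with hc
  have hb0 : 3 / 8 ≤ b := by linarith
  -- |p^2 - 1/2| ≤ 6 θ
  have e1 : (p ^ 2 - 1 / 2) * b ≤ 9 / 4 * θ := by nlinarith
  have e2 : -(9 / 4 * θ) ≤ (p ^ 2 - 1 / 2) * b := by nlinarith
  have f1 : p ^ 2 - 1 / 2 ≤ 6 * θ := by
    by_contra hcon
    push Not at hcon
    nlinarith
  have f2 : -(6 * θ) ≤ p ^ 2 - 1 / 2 := by
    by_contra hcon
    push Not at hcon
    nlinarith
  have hpp : 0 < p + √2 / 2 := by linarith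
  have g1 : (p - √2 / 2) * (p + √2 / 2) = p ^ 2 - 1 / 2 := by nlinarith
  have hs2 : 4 / 3 ≤ √2 := by
    apply Real.le_sqrt_of_sq_le
    norm_num
  rw [abs_le]
  constructor
  · by_contra hcon
    push Not at hcon
    nlinarith
  · by_contra hcon
    push Not at hcon
    nlinarith

/-- All `j` but at most `6 θ N` satisfy `|p j - √2/2| ≤ 9 θ`; the others satisfy `|p j - √2/2| ≤ 1`. -/
theorem avg_of_pairs {α : Type} [Fintype α] [DecidableEq α] (p q r : α → ℝ) (θ : ℝ) (hθ : 0 < θ) (hθ8 : θ ≤ 1 / 8)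
    (hp : ∀ j, 0 ≤ p j ∧ p j ≤ 1) (hq : ∀ j, 0 ≤ q j ∧ q j ≤ 1) (hr : ∀ j, 0 ≤ r j ∧ r j ≤ 1)
    (hpq : ∀ J : Finset α, θ * (Fintype.card α : ℝ) ≤ (J.card : ℝ) → |∑ j ∈ J, (1 / 2 - p j * q j)| ≤ θ * J.card)
    (hqr : ∀ J : Finset α, θ * (Fintype.card α : ℝ) ≤ (J.card : ℝ) → |∑ j ∈ J, (1 / 2 - q j * r j)| ≤ θ * J.card)
    (hpr : ∀ J : Finset α, θ * (Fintype.card α : ℝ) ≤ (J.card : ℝ) → |∑ j ∈ J, (1 / 2 - p j * r j)| ≤ θ * J.card) :
    |(∑ j, p j) - Fintype.card α * (√2 / 2)| ≤ 15 * θ * Fintype.card α := by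
  classical
  have k1 := few_exceptions p q θ hθ hpq
  have k2 := few_exceptions q r θ hθ hqr
  have k3 := few_exceptions p r θ hθ hpr
  set E1 := Finset.univ.filter (fun j => ¬ |p j * q j - 1 / 2| ≤ θ) with hE1
  set E2 := Finset.univ.filter (fun j => ¬ |q j * r j - 1 / 2| ≤ θ) with hE2
  set E3 := Finset.univ.filter (fun j => ¬ |p j * r j - 1 / 2| ≤ θ) with hE3
  set E := E1 ∪ E2 ∪ E3 with hE
  have hEc : (E.card : ℝ) ≤ 6 * θ * Fintype.card α := by
    have h1 : E.card ≤ E1.card + E2.card + E3.card :=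
      (Finset.card_union_le _ _).trans (Nat.add_le_add_right (Finset.card_union_le _ _) _)
    have h2 : (E.card : ℝ) ≤ (E1.card : ℝ) + E2.card + E3.card := by exact_mod_cast h1
    linarith
  have hs1 : 1 ≤ √2 := by
    rw [Real.one_le_sqrt]; norm_num
  have hs2 : √2 ≤ 2 := by
    rw [Real.sqrt_le_left (by norm_num)]; norm_num
  have h4 : (∑ j, p j) - Fintype.card α * (√2 / 2) = ∑ j, (p j - √2 / 2) := by
    rw [Finset.sum_sub_distrib, Finset.sum_const, nsmul_eq_mul, Finset.card_univ]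
  rw [h4]
  refine (Finset.abs_sum_le_sum_abs _ _).trans ?_
  have h5 : ∀ j ∈ (Finset.univ : Finset α), |p j - √2 / 2| ≤ 9 * θ + (if j ∈ E then 1 else 0) := by
    intro j _
    by_cases hj : j ∈ E
    · rw [if_pos hj]
      have h6 : |p j - √2 / 2| ≤ 1 := by
        rw [abs_le]
        constructor <;> linarith [(hp j).1, (hp j).2]
      linarith
    · rw [if_neg hj, add_zero]
      rw [hE, Finset.mem_union, Finset.mem_union, not_or, not_or, hE1, hE2, hE3, Finset.mem_filter,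
        Finset.mem_filter, Finset.mem_filter] at hj
      obtain ⟨⟨g1, g2⟩, g3⟩ := hj
      simp only [Finset.mem_univ, true_and, not_not] at g1 g2 g3
      exact close_of_products _ _ _ θ hθ hθ8 (hp j).1 (hq j).1 (hr j).1 g1 g2 g3
  refine (Finset.sum_le_sum h5).trans ?_
  rw [Finset.sum_add_distrib, Finset.sum_const, nsmul_eq_mul, Finset.card_univ, Finset.sum_ite_mem,
    Finset.univ_inter, Finset.sum_const, nsmul_eq_mul, mul_one]
  linarith

end Helper650_UB

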