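import Mathlib
set_option autoImplicit false

/-! From typical unions on all shifts to the product of the frequencies. -/

namespace Helper650_UB

open Finset

/-- The proportion of the members of the tuple `x` which do not contain `j`. -/
noncomputable def frac {α : Type} [DecidableEq α] {t : ℕ} (x : Fin t → Finset α) (j : α) : ℝ :=
  (∑ i : Fin t, (if j ∈ x i then (0 : ℝ) else 1)) / t

theorem frac_nonneg {α : Type} [DecidableEq α] {t : ℕ} (x : Fin t → Finset α) (j : α) : 0 ≤ frac x j := by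
  unfold frac
  apply div_nonneg _ (Nat.cast_nonneg _)
  apply Finset.sum_nonneg
  intro i _
  split_ifs <;> norm_num

theorem frac_le_one {α : Type} [DecidableEq α] {t : ℕ} (x : Fin t → Finset α) (j : α) : frac x j ≤ 1 := by
  unfold frac
  apply div_le_one_of_le₀ _ (Nat.cast_nonneg _)
  calc ∑ i : Fin t, (if j ∈ x i then (0 : ℝ) else 1) ≤ ∑ i : Fin t, (1 : ℝ) := by
        apply Finset.sum_le_sum
        intro i _
        split_ifs <;> norm_num
    _ = t := by simp

theorem card_inter_eq {α : Type} [DecidableEq α] (U J : Finset α) :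
    ((U ∩ J).card : ℝ) = ∑ j ∈ J, (if j ∈ U then (1 : ℝ) else 0) := by
  rw [Finset.sum_boole, Finset.inter_comm, Finset.filter_mem_eq_inter]

theorem pair_avg {α : Type} [Fintype α] [DecidableEq α] {t : ℕ} [NeZero t] (θ : ℝ) (x y : Fin t → Finset α)
    (h : ∀ s : Fin t, ∀ J : Finset α, θ * (Fintype.card α : ℝ) ≤ (J.card : ℝ) →
      |(∑ i, (((x i ∪ y (i + s)) ∩ J).card : ℝ)) - t * J.card / 2| ≤ θ * t * J.card)
    (J : Finset α) (hJ : θ * (Fintype.card α : ℝ) ≤ (J.card : ℝ)) :
    |∑ j ∈ J, (1 / 2 - frac x j * frac y j)| ≤ θ * J.card := by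
  have ht : (0 : ℝ) < t := by
    have := NeZero.pos t
    exact_mod_cast this
  -- the double sum
  have hsum : ∀ j : α, frac x j * frac y j * (t : ℝ) ^ 2 =
      ∑ s : Fin t, ∑ i : Fin t, (1 - (if j ∈ x i ∪ y (i + s) then (1 : ℝ) else 0)) := by
    intro j
    have h1 : frac x j * frac y j * (t : ℝ) ^ 2 =
        (∑ i : Fin t, (if j ∈ x i then (0 : ℝ) else 1)) * (∑ i : Fin t, (if j ∈ y i then (0 : ℝ) else 1)) := by
      unfold frac
      field_simp
    rw [h1, Finset.sum_mul_sum, Finset.sum_comm' (t' := Finset.univ) (s' := fun _ => Finset.univ)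
      (h := by simp)]
    rw [Finset.sum_comm]
    rw [Finset.sum_comm (f := fun (s i : Fin t) => (1 - (if j ∈ x i ∪ y (i + s) then (1 : ℝ) else 0)))]
    apply Finset.sum_congr rfl
    intro i _
    rw [← Equiv.sum_comp (Equiv.addLeft i)]
    apply Finset.sum_congr rfl
    intro s _
    simp only [Equiv.coe_addLeft, Finset.mem_union]
    by_cases h1 : j ∈ x i <;> by_cases h2 : j ∈ y (i + s) <;> simp [h1, h2]
  have hmain : (∑ j ∈ J, (1 / 2 - frac x j * frac y j)) * (t : ℝ) ^ 2 =
      ∑ s : Fin t, ((∑ i, (((x i ∪ y (i + s)) ∩ J).card : ℝ)) - t * J.card / 2) := by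
    have h1 : (∑ j ∈ J, (1 / 2 - frac x j * frac y j)) * (t : ℝ) ^ 2 =
        ∑ j ∈ J, (1 / 2 * (t : ℝ) ^ 2 -
          ∑ s : Fin t, ∑ i : Fin t, (1 - (if j ∈ x i ∪ y (i + s) then (1 : ℝ) else 0))) := by
      rw [Finset.sum_mul]
      apply Finset.sum_congr rfl
      intro j _
      rw [← hsum j]
      ring
    rw [h1, Finset.sum_sub_distrib, Finset.sum_comm]
    have h2 : ∀ s : Fin t, ∑ j ∈ J, ∑ i : Fin t, (1 - (if j ∈ x i ∪ y (i + s) then (1 : ℝ) else 0)) =
        t * J.card - ∑ i, (((x i ∪ y (i + s)) ∩ J).card : ℝ) := by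
      intro s
      rw [Finset.sum_comm]
      simp only [Finset.sum_sub_distrib]
      congr 1
      · simp
      · apply Finset.sum_congr rfl
        intro i _
        rw [card_inter_eq]
    rw [Finset.sum_congr rfl (fun s _ => h2 s)]
    simp only [Finset.sum_sub_distrib, Finset.sum_const, Finset.card_univ, Fintype.card_fin, nsmul_eq_mul]
    ring
  have habs : |∑ j ∈ J, (1 / 2 - frac x j * frac y j)| * (t : ℝ) ^ 2 ≤ θ * J.card * (t : ℝ) ^ 2 := by
    have h1 : |∑ j ∈ J, (1 / 2 - frac x j * frac y j)| * (t : ℝ) ^ 2 =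
        |∑ s : Fin t, ((∑ i, (((x i ∪ y (i + s)) ∩ J).card : ℝ)) - t * J.card / 2)| := by
      rw [← hmain, abs_mul, abs_of_nonneg (sq_nonneg (t : ℝ))]
    rw [h1]
    calc |∑ s : Fin t, ((∑ i, (((x i ∪ y (i + s)) ∩ J).card : ℝ)) - t * J.card / 2)|
        ≤ ∑ s : Fin t, |(∑ i, (((x i ∪ y (i + s)) ∩ J).card : ℝ)) - t * J.card / 2| :=
          Finset.abs_sum_le_sum_abs _ _
      _ ≤ ∑ s : Fin t, θ * t * J.card := Finset.sum_le_sum (fun s _ => h s J hJ)
      _ = θ * J.card * (t : ℝ) ^ 2 := by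
          simp only [Finset.sum_const, Finset.card_univ, Fintype.card_fin, nsmul_eq_mul]
          ring
  exact le_of_mul_le_mul_right habs (by positivity)

/-- The sum of `frac` over all points. -/
theorem sum_frac {α : Type} [Fintype α] [DecidableEq α] {t : ℕ} [NeZero t] (x : Fin t → Finset α) :
    ∑ j, frac x j = Fintype.card α - (∑ i, ((x i).card : ℝ)) / t := by
  have ht : (0 : ℝ) < t := by
    have := NeZero.pos t
    exact_mod_cast this
  unfold frac
  rw [← Finset.sum_div, Finset.sum_comm]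
  have h2 : ∀ i : Fin t, ∑ j : α, (if j ∈ x i then (0 : ℝ) else 1) = Fintype.card α - ((x i).card : ℝ) := by
    intro i
    have h3 : ∀ j : α, (if j ∈ x i then (0 : ℝ) else 1) = 1 - (if j ∈ x i then (1 : ℝ) else 0) := by
      intro j
      split_ifs <;> norm_num
    simp only [h3, Finset.sum_sub_distrib]
    simp
  rw [Finset.sum_congr rfl (fun i _ => h2 i), Finset.sum_sub_distrib]
  simp only [Finset.sum_const, Finset.card_univ, Fintype.card_fin, nsmul_eq_mul]
  field_simp

end Helper650_UB
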