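import Mathlib
set_option autoImplicit false
namespace Helper650_UB

/-- `codeg a b ≥ deg a + deg b - |V|` for every pair, sum over the related pairs, Cauchy-Schwarz for the degrees
(`E` may have loops; `V` may be empty). All sums are sums of 0/1 values. -/
theorem triangles {V : Type} [Fintype V] (E : V → V → Prop) [DecidableRel E] (hsymm : ∀ a b, E a b → E b a) (e : ℝ)
    (he : 1 / 2 ≤ e)
    (hE : e * (Fintype.card V : ℝ) ^ 2 ≤ ∑ a : V, ∑ b : V, (if E a b then (1 : ℝ) else 0)) :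
    e * (2 * e - 1) * (Fintype.card V : ℝ) ^ 3 ≤
      ∑ a : V, ∑ b : V, ∑ c : V, (if E a b ∧ E b c ∧ E a c then (1 : ℝ) else 0) := by
  let A : V → V → ℝ := fun a b => if E a b then (1 : ℝ) else 0
  let g : V → ℝ := fun a => ∑ b, A a b
  have hAs : ∀ a b, A a b = A b a := by
    intro a b
    by_cases h : E a b
    · have h' := hsymm a b h
      simp only [A, h, h', if_true]
    · have h' : ¬ E b a := fun h2 => h (hsymm b a h2)
      simp only [A, h, h', if_false]
  have hpt : ∀ a b c, A a b * (A b c + A a c - 1) ≤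
      (if E a b ∧ E b c ∧ E a c then (1 : ℝ) else 0) := by
    intro a b c
    by_cases h1 : E a b <;> by_cases h2 : E b c <;> by_cases h3 : E a c <;>
      simp [A, h1, h2, h3]
  have hinner : ∀ a b, ∑ c, A a b * (A b c + A a c - 1) =
      A a b * g b + A a b * g a - (Fintype.card V : ℝ) * A a b := by
    intro a b
    rw [← Finset.mul_sum, Finset.sum_sub_distrib, Finset.sum_add_distrib, Finset.sum_const,
      Finset.card_univ, nsmul_eq_mul, mul_one]
    ring
  have hsum : ∑ a, ∑ b, ∑ c, A a b * (A b c + A a c - 1) =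
      2 * ∑ a, g a ^ 2 - (Fintype.card V : ℝ) * ∑ a, g a := by
    simp_rw [hinner]
    have h1 : ∑ a, ∑ b, A a b * g b = ∑ b, g b ^ 2 := by
      rw [Finset.sum_comm]
      apply Finset.sum_congr rfl
      intro b _
      rw [← Finset.sum_mul]
      have : ∑ a, A a b = g b := Finset.sum_congr rfl fun a _ => hAs a b
      rw [this]
      ring
    have h2 : ∑ a, ∑ b, A a b * g a = ∑ a, g a ^ 2 := by
      apply Finset.sum_congr rfl
      intro a _
      rw [← Finset.sum_mul]
      show g a * g a = g a ^ 2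
      ring
    have h3 : ∑ a, ∑ b, (Fintype.card V : ℝ) * A a b = (Fintype.card V : ℝ) * ∑ a, g a := by
      rw [Finset.mul_sum]
      apply Finset.sum_congr rfl
      intro a _
      rw [← Finset.mul_sum]
    simp_rw [Finset.sum_sub_distrib, Finset.sum_add_distrib]
    rw [h1, h2, h3]
    ring
  have hT : 2 * ∑ a, g a ^ 2 - (Fintype.card V : ℝ) * ∑ a, g a ≤
      ∑ a : V, ∑ b : V, ∑ c : V, (if E a b ∧ E b c ∧ E a c then (1 : ℝ) else 0) := by
    rw [← hsum]
    exact Finset.sum_le_sum fun a _ => Finset.sum_le_sum fun b _ => Finset.sum_le_sum fun c _ =>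
      hpt a b c
  have hCS : (∑ a, g a) ^ 2 ≤ (Fintype.card V : ℝ) * ∑ a, g a ^ 2 := by
    have := sq_sum_le_card_mul_sum_sq (s := (Finset.univ : Finset V)) (f := g)
    rwa [Finset.card_univ] at this
  have hE' : e * (Fintype.card V : ℝ) ^ 2 ≤ ∑ a, g a := hE
  set n : ℝ := (Fintype.card V : ℝ) with hn
  have hn0 : 0 ≤ n := Nat.cast_nonneg _
  rcases hn0.eq_or_lt with h0 | h0
  · have h1 : (0 : ℝ) ≤ ∑ a : V, ∑ b : V, ∑ c : V,
        (if E a b ∧ E b c ∧ E a c then (1 : ℝ) else 0) :=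
      Finset.sum_nonneg fun a _ => Finset.sum_nonneg fun b _ => Finset.sum_nonneg fun c _ => by
        split_ifs <;> norm_num
    rw [← h0]
    simpa using h1
  · refine le_trans ?_ hT
    have h1 : n * (e * (2 * e - 1) * n ^ 3) ≤ n * (2 * ∑ a, g a ^ 2 - n * ∑ a, g a) := by
      have h2 : (e * n ^ 2) * ((2 * e - 1) * n ^ 2) ≤ (∑ a, g a) * (2 * ∑ a, g a - n ^ 2) := by
        apply mul_le_mul hE' (by nlinarith)
        · have : 0 ≤ 2 * e - 1 := by linarith
          positivity
        · have : 0 ≤ e * n ^ 2 := by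
            have : 0 ≤ e := by linarith
            positivity
          linarith
      nlinarith
    exact le_of_mul_le_mul_left h1 h0

/-- Jensen/power mean: `∑ y⃗, ∏ i, f x (y⃗ i) = (∑ y, f x y)^t` (`Finset.sum_pow'` or `Fintype.sum_pow`), then
`pow_sum_div_card_le_sum_pow` or `inner_le`/`Finset.inner_mul_le_norm_mul_norm`-type lemmas. -/
theorem blow_step {X Y : Type} [Fintype X] [Fintype Y] (f : X → Y → ℝ) (hf : ∀ x y, 0 ≤ f x y) (l : ℝ) (hl : 0 ≤ l)
    (h : l * (Fintype.card X : ℝ) * (Fintype.card Y : ℝ) ≤ ∑ x, ∑ y, f x y) (t : ℕ) (ht : 0 < t) :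
    l ^ t * (Fintype.card X : ℝ) * (Fintype.card Y : ℝ) ^ t ≤ ∑ x, ∑ y : Fin t → Y, ∏ i, f x (y i) := by
  have h1 : ∀ x, ∑ y : Fin t → Y, ∏ i, f x (y i) = (∑ y, f x y) ^ t := by
    intro x
    rw [Fintype.sum_pow]
  simp_rw [h1]
  obtain ⟨s, rfl⟩ : ∃ s, t = s + 1 := ⟨t - 1, by omega⟩
  have h2 := pow_sum_div_card_le_sum_pow (s := (Finset.univ : Finset X)) (f := fun x => ∑ y, f x y)
    (n := s) (fun x _ => Finset.sum_nonneg fun y _ => hf x y)
  rw [Finset.card_univ] at h2
  rcases Nat.eq_zero_or_pos (Fintype.card X) with h0 | h0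
  · rw [h0, Nat.cast_zero, mul_zero, zero_mul]
    exact Finset.sum_nonneg fun x _ => pow_nonneg (Finset.sum_nonneg fun y _ => hf x y) _
  · have hX : (0 : ℝ) < (Fintype.card X : ℝ) := by exact_mod_cast h0
    refine le_trans ?_ h2
    rw [le_div_iff₀ (pow_pos hX s)]
    calc l ^ (s + 1) * (Fintype.card X : ℝ) * (Fintype.card Y : ℝ) ^ (s + 1) *
        (Fintype.card X : ℝ) ^ s =
        (l * (Fintype.card X : ℝ) * (Fintype.card Y : ℝ)) ^ (s + 1) := by ring
      _ ≤ (∑ x, ∑ y, f x y) ^ (s + 1) := pow_le_pow_left₀ (by positivity) h _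

end Helper650_UB

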