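import Mathlib
set_option autoImplicit false
namespace Helper650_UB

/-- one factor -/
lemma h724ub_one {α : Type} [Fintype α] [DecidableEq α] (J : Finset α) (s : ℝ) :
    ∑ U : Finset α, Real.exp (s * (2 * ((U ∩ J).card : ℝ) - J.card))
      ≤ 2 ^ (Fintype.card α) * Real.exp (s ^ 2 / 2 * J.card) := by
  have h1 : ∑ U : Finset α, Real.exp (s * (2 * ((U ∩ J).card : ℝ) - J.card)) =
      ∏ a : α, ((if a ∈ J then Real.exp s else 1) + (if a ∈ J then Real.exp (-s) else 1)) := by
    rw [Finset.prod_add, Finset.powerset_univ]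
    refine Finset.sum_congr rfl fun U _ => ?_
    rw [Finset.prod_ite_mem, Finset.prod_ite_mem, Finset.prod_const, Finset.prod_const,
      ← Real.exp_nat_mul, ← Real.exp_nat_mul, ← Real.exp_add]
    congr 1
    have h2 : (Finset.univ \ U) ∩ J = J \ U := by
      ext a
      simp [and_comm]
    have h3 : ((J \ U).card : ℝ) + ((U ∩ J).card : ℝ) = J.card := by
      rw [Finset.inter_comm U J]
      exact_mod_cast Finset.card_sdiff_add_card_inter J U
    rw [h2, ← h3]
    ring
  have h4 : ∏ a : α, ((if a ∈ J then Real.exp s else 1) + (if a ∈ J then Real.exp (-s) else 1)) ≤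
      ∏ a : α, (2 * (if a ∈ J then Real.exp (s ^ 2 / 2) else 1)) := by
    refine Finset.prod_le_prod (fun a _ => ?_) (fun a _ => ?_)
    · split_ifs
      · positivity
      · norm_num
    · split_ifs
      · have := Real.cosh_le_exp_half_sq s
        rw [Real.cosh_eq] at this
        linarith
      · norm_num
  have h5 : ∏ a : α, (2 * (if a ∈ J then Real.exp (s ^ 2 / 2) else 1)) =
      2 ^ (Fintype.card α) * Real.exp (s ^ 2 / 2 * J.card) := by
    rw [Finset.prod_mul_distrib, Finset.prod_const, Finset.prod_ite_mem, Finset.prod_const,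
      Finset.univ_inter, ← Real.exp_nat_mul, Finset.card_univ, mul_comm (J.card : ℝ)]
  rw [h1, ← h5]
  exact h4

/-- one set, one sign -/
lemma h724ub_side {α : Type} [Fintype α] [DecidableEq α] (t : ℕ) (J : Finset α) (s θ : ℝ)
    (hs : s = 2 * θ ∨ s = -(2 * θ)) :
    ((Finset.univ.filter (fun U : Fin t → Finset α =>
        4 * θ ^ 2 * t * J.card ≤ s * (2 * (∑ i, (((U i) ∩ J).card : ℝ)) - t * J.card))).card : ℝ)
      ≤ 2 ^ (Fintype.card α * t) * Real.exp (-(2 * θ ^ 2 * t * J.card)) := by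
  have hs2 : s ^ 2 = 4 * θ ^ 2 := by rcases hs with rfl | rfl <;> ring
  have h1 : ∀ U : Fin t → Finset α,
      Real.exp (s * (2 * (∑ i, (((U i) ∩ J).card : ℝ)) - t * J.card)) =
        ∏ i, Real.exp (s * (2 * (((U i) ∩ J).card : ℝ) - J.card)) := by
    intro U
    rw [← Real.exp_sum]
    congr 1
    rw [← Finset.mul_sum, Finset.sum_sub_distrib, ← Finset.mul_sum, Finset.sum_const,
      Finset.card_univ, Fintype.card_fin, nsmul_eq_mul]
  have h2 : ∑ U : Fin t → Finset α,
      Real.exp (s * (2 * (∑ i, (((U i) ∩ J).card : ℝ)) - t * J.card)) ≤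
        (2 ^ (Fintype.card α) * Real.exp (s ^ 2 / 2 * J.card)) ^ t := by
    rw [Finset.sum_congr rfl fun U _ => h1 U,
      ← Fintype.sum_pow (fun U : Finset α => Real.exp (s * (2 * ((U ∩ J).card : ℝ) - J.card))) t]
    exact pow_le_pow_left₀ (Finset.sum_nonneg fun U _ => (Real.exp_pos _).le) (h724ub_one J s) t
  have h3 : ((Finset.univ.filter (fun U : Fin t → Finset α =>
        4 * θ ^ 2 * t * J.card ≤ s * (2 * (∑ i, (((U i) ∩ J).card : ℝ)) - t * J.card))).card : ℝ) *
        Real.exp (4 * θ ^ 2 * t * J.card) ≤ ∑ U : Fin t → Finset α,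
      Real.exp (s * (2 * (∑ i, (((U i) ∩ J).card : ℝ)) - t * J.card)) := by
    rw [← nsmul_eq_mul, ← Finset.sum_const]
    refine (Finset.sum_le_sum (fun U hU => ?_)).trans
      (Finset.sum_le_sum_of_subset_of_nonneg (Finset.filter_subset _ _)
        fun U _ _ => (Real.exp_pos _).le)
    exact Real.exp_le_exp.2 (Finset.mem_filter.1 hU).2
  have h4 : (2 ^ (Fintype.card α) * Real.exp (s ^ 2 / 2 * J.card)) ^ t =
      2 ^ (Fintype.card α * t) * Real.exp (2 * θ ^ 2 * t * J.card) := by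
    rw [mul_pow, ← pow_mul, ← Real.exp_nat_mul, hs2]
    congr 2
    ring
  have h5 := h3.trans (h2.trans_eq h4)
  have h6 : Real.exp (2 * θ ^ 2 * t * J.card) =
      Real.exp (-(2 * θ ^ 2 * t * J.card)) * Real.exp (4 * θ ^ 2 * t * J.card) := by
    rw [← Real.exp_add]
    congr 1
    ring
  rw [h6, ← mul_assoc] at h5
  exact le_of_mul_le_mul_right h5 (Real.exp_pos _)

/-- TARGET (J2). Counting argument: for one `J` the number of tuples with a large deviation is at most
`2 * 2^(N t) * exp(-2 θ^2 t |J|)` (multiply by `exp(2θ(2X - t|J|))`, `X = ∑ |U i ∩ J|`; the sum over all tuples factors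
into `(2^(N-|J|) (e^(2θ)+e^(-2θ))^|J|)^t` by `Finset.prod_add`/`Finset.sum_pow`; use `Real.cosh_le_exp_half_sq`), then a union
bound over the `2^N` sets `J`, and `e^2 ≥ 4`. -/
theorem count_bad {α : Type} [Fintype α] [DecidableEq α] (t : ℕ) (θ : ℝ) (hθ : 0 < θ) (ht : 1 ≤ θ ^ 3 * t) :
    ((Finset.univ.filter (fun U : Fin t → Finset α => ∃ J : Finset α,
        θ * (Fintype.card α : ℝ) ≤ (J.card : ℝ) ∧
        θ * t * J.card < |(∑ i, (((U i) ∩ J).card : ℝ)) - t * J.card / 2|)).card : ℝ)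
      ≤ 2 * 2 ^ (Fintype.card α * t) / 2 ^ (Fintype.card α) := by
  classical
  set n := Fintype.card α with hn
  let A : Finset α → ℝ → Finset (Fin t → Finset α) := fun J s =>
    Finset.univ.filter (fun U : Fin t → Finset α =>
        4 * θ ^ 2 * t * J.card ≤ s * (2 * (∑ i, (((U i) ∩ J).card : ℝ)) - t * J.card))
  have hsub : (Finset.univ.filter (fun U : Fin t → Finset α => ∃ J : Finset α,
        θ * (n : ℝ) ≤ (J.card : ℝ) ∧
        θ * t * J.card < |(∑ i, (((U i) ∩ J).card : ℝ)) - t * J.card / 2|)) ⊆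
      (Finset.univ.filter (fun J : Finset α => θ * (n : ℝ) ≤ (J.card : ℝ))).biUnion
        (fun J => A J (2 * θ) ∪ A J (-(2 * θ))) := by
    intro U hU
    obtain ⟨J, hJ, hU⟩ := (Finset.mem_filter.1 hU).2
    rw [Finset.mem_biUnion]
    refine ⟨J, Finset.mem_filter.2 ⟨Finset.mem_univ _, hJ⟩, ?_⟩
    rw [Finset.mem_union]
    rcases lt_abs.1 hU with h | h
    · left
      refine Finset.mem_filter.2 ⟨Finset.mem_univ _, ?_⟩
      nlinarith
    · right
      refine Finset.mem_filter.2 ⟨Finset.mem_univ _, ?_⟩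
      nlinarith
  have hone : ∀ J ∈ Finset.univ.filter (fun J : Finset α => θ * (n : ℝ) ≤ (J.card : ℝ)),
      (((A J (2 * θ) ∪ A J (-(2 * θ))).card : ℕ) : ℝ) ≤
        2 * 2 ^ (n * t) * Real.exp (-(2 * n)) := by
    intro J hJ
    have hJ := (Finset.mem_filter.1 hJ).2
    have h1 : (((A J (2 * θ) ∪ A J (-(2 * θ))).card : ℕ) : ℝ) ≤
        ((A J (2 * θ)).card : ℝ) + ((A J (-(2 * θ))).card : ℝ) := by
      exact_mod_cast Finset.card_union_le _ _
    have h2 := h724ub_side t J (2 * θ) θ (Or.inl rfl)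
    have h3 := h724ub_side t J (-(2 * θ)) θ (Or.inr rfl)
    have h4 : Real.exp (-(2 * θ ^ 2 * t * J.card)) ≤ Real.exp (-(2 * n)) := by
      apply Real.exp_le_exp.2
      have h5 : (n : ℝ) ≤ θ ^ 2 * t * J.card := by
        calc (n : ℝ) = 1 * n := by ring
          _ ≤ (θ ^ 3 * t) * n := by gcongr
          _ = θ ^ 2 * t * (θ * n) := by ring
          _ ≤ θ ^ 2 * t * J.card := by gcongr
      linarith
    have h6 : (2 : ℝ) ^ (n * t) * Real.exp (-(2 * θ ^ 2 * t * J.card)) ≤
        2 ^ (n * t) * Real.exp (-(2 * n)) := by gcongr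
    change ((A J (2 * θ)).card : ℝ) ≤ _ at h2
    change ((A J (-(2 * θ))).card : ℝ) ≤ _ at h3
    linarith
  have h7 : ((Finset.univ.filter (fun J : Finset α => θ * (n : ℝ) ≤ (J.card : ℝ))).card : ℝ) ≤
      2 ^ n := by
    have := Finset.card_filter_le (Finset.univ : Finset (Finset α))
      (fun J : Finset α => θ * (n : ℝ) ≤ (J.card : ℝ))
    rw [Finset.card_univ, Fintype.card_finset] at this
    exact_mod_cast this
  have h8 : Real.exp (-(2 * n)) ≤ 1 / (2 ^ n * 2 ^ n) := by
    rw [Real.exp_neg, ← one_div]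
    apply one_div_le_one_div_of_le (by positivity)
    rw [← pow_add, ← two_mul]
    have h9 : (2 : ℝ) ≤ Real.exp 1 := by
      have := Real.add_one_le_exp (1 : ℝ)
      linarith
    calc (2 : ℝ) ^ (2 * n) ≤ Real.exp 1 ^ (2 * n) := pow_le_pow_left₀ (by norm_num) h9 _
      _ = Real.exp (2 * n) := by
        rw [← Real.exp_nat_mul]
        congr 1
        push_cast
        ring
  calc ((Finset.univ.filter (fun U : Fin t → Finset α => ∃ J : Finset α,
        θ * (n : ℝ) ≤ (J.card : ℝ) ∧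
        θ * t * J.card < |(∑ i, (((U i) ∩ J).card : ℝ)) - t * J.card / 2|)).card : ℝ)
      ≤ (((Finset.univ.filter (fun J : Finset α => θ * (n : ℝ) ≤ (J.card : ℝ))).biUnion
        (fun J => A J (2 * θ) ∪ A J (-(2 * θ)))).card : ℝ) := by
        exact_mod_cast Finset.card_le_card hsub
    _ ≤ ∑ J ∈ Finset.univ.filter (fun J : Finset α => θ * (n : ℝ) ≤ (J.card : ℝ)),
        (((A J (2 * θ) ∪ A J (-(2 * θ))).card : ℕ) : ℝ) := by
        exact_mod_cast Finset.card_biUnion_le
    _ ≤ ∑ J ∈ Finset.univ.filter (fun J : Finset α => θ * (n : ℝ) ≤ (J.card : ℝ)),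
        (2 * 2 ^ (n * t) * Real.exp (-(2 * n))) := Finset.sum_le_sum hone
    _ ≤ 2 ^ n * (2 * 2 ^ (n * t) * Real.exp (-(2 * n))) := by
        rw [Finset.sum_const, nsmul_eq_mul]
        gcongr
    _ ≤ 2 ^ n * (2 * 2 ^ (n * t) * (1 / (2 ^ n * 2 ^ n))) := by gcongr
    _ = 2 * 2 ^ (n * t) / 2 ^ n := by
        field_simp

end Helper650_UB

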