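import Mathlib
set_option autoImplicit false

/-! The graph of chosen representations `S = A ∪ B`. -/

namespace Helper650_UB

open Finset

/-- The pair `a`, `b` is (in one of the two orders) the chosen representation of its union. -/
def Rel {α : Type} [DecidableEq α] {F : Finset (Finset α)} (ra rb : Finset α → {A : Finset α // A ∈ F})
    (a b : {A : Finset α // A ∈ F}) : Prop :=
  (a = ra ((a : Finset α) ∪ b) ∧ b = rb ((a : Finset α) ∪ b)) ∨
    (a = rb ((a : Finset α) ∪ b) ∧ b = ra ((a : Finset α) ∪ b))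

theorem Rel.symm {α : Type} [DecidableEq α] {F : Finset (Finset α)} {ra rb : Finset α → {A : Finset α // A ∈ F}}
    {a b : {A : Finset α // A ∈ F}} (h : Rel ra rb a b) : Rel ra rb b a := by
  unfold Rel at h ⊢
  rw [Finset.union_comm (b : Finset α) a]
  rcases h with ⟨h1, h2⟩ | ⟨h1, h2⟩
  · exact Or.inr ⟨h2, h1⟩
  · exact Or.inl ⟨h2, h1⟩

theorem rel_rep {α : Type} [DecidableEq α] {F : Finset (Finset α)} {ra rb : Finset α → {A : Finset α // A ∈ F}}
    (h : ∀ S, (ra S : Finset α) ∪ rb S = S) (S : Finset α) : Rel ra rb (ra S) (rb S) := by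
  unfold Rel
  rw [h S]
  exact Or.inl ⟨rfl, rfl⟩

theorem two_pow_le_sq {α : Type} [Fintype α] [DecidableEq α] (F : Finset (Finset α))
    (ra rb : Finset α → {A : Finset α // A ∈ F}) (h : ∀ S, (ra S : Finset α) ∪ rb S = S) :
    (2 : ℝ) ^ (Fintype.card α) ≤ (F.card : ℝ) ^ 2 := by
  have hinj : Function.Injective (fun S : Finset α => (ra S, rb S)) := by
    intro S S' hS
    simp only [Prod.mk.injEq] at hS
    rw [← h S, ← h S', hS.1, hS.2]
  have h1 := Fintype.card_le_of_injective _ hinj
  rw [Fintype.card_finset, Fintype.card_prod, Fintype.card_coe] at h1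
  calc (2 : ℝ) ^ (Fintype.card α) = ((2 ^ Fintype.card α : ℕ) : ℝ) := by push_cast; rfl
    _ ≤ ((F.card * F.card : ℕ) : ℝ) := by exact_mod_cast h1
    _ = (F.card : ℝ) ^ 2 := by push_cast; ring

open Classical in
theorem edge_count {α : Type} [Fintype α] [DecidableEq α] (F : Finset (Finset α))
    (ra rb : Finset α → {A : Finset α // A ∈ F}) (h : ∀ S, (ra S : Finset α) ∪ rb S = S) :
    2 * (2 : ℝ) ^ (Fintype.card α) - F.card ≤
      ∑ a : {A : Finset α // A ∈ F}, ∑ b : {A : Finset α // A ∈ F}, (if Rel ra rb a b then (1 : ℝ) else 0) := by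
  have hsum : ∑ a : {A : Finset α // A ∈ F}, ∑ b : {A : Finset α // A ∈ F}, (if Rel ra rb a b then (1 : ℝ) else 0) =
      ((Finset.univ.filter (fun p : {A : Finset α // A ∈ F} × {A : Finset α // A ∈ F} => Rel ra rb p.1 p.2)).card : ℝ) := by
    rw [← Finset.sum_boole, ← Fintype.sum_prod_type']
  rw [hsum]
  set P1 : Finset ({A : Finset α // A ∈ F} × {A : Finset α // A ∈ F}) := Finset.univ.image (fun S : Finset α => (ra S, rb S)) with hP1
  set P2 : Finset ({A : Finset α // A ∈ F} × {A : Finset α // A ∈ F}) := Finset.univ.image (fun S : Finset α => (rb S, ra S)) with hP2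
  have hc1 : P1.card = 2 ^ Fintype.card α := by
    rw [hP1, Finset.card_image_of_injective, Finset.card_univ, Fintype.card_finset]
    intro S S' hS
    simp only [Prod.mk.injEq] at hS
    rw [← h S, ← h S', hS.1, hS.2]
  have hc2 : P2.card = 2 ^ Fintype.card α := by
    rw [hP2, Finset.card_image_of_injective, Finset.card_univ, Fintype.card_finset]
    intro S S' hS
    simp only [Prod.mk.injEq] at hS
    rw [← h S, ← h S', hS.1, hS.2]
  have hint : (P1 ∩ P2).card ≤ F.card := by
    have hsub : P1 ∩ P2 ⊆ Finset.univ.image (fun a : {A : Finset α // A ∈ F} => (a, a)) := by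
      rintro ⟨a, b⟩ hab
      rw [Finset.mem_inter, hP1, hP2, Finset.mem_image, Finset.mem_image] at hab
      obtain ⟨⟨S, -, hS⟩, ⟨S', -, hS'⟩⟩ := hab
      simp only [Prod.mk.injEq] at hS hS'
      have e1 : (a : Finset α) ∪ b = S := by rw [← hS.1, ← hS.2, h S]
      have e2 : (a : Finset α) ∪ b = S' := by rw [← hS'.1, ← hS'.2, Finset.union_comm, h S']
      have e3 : S = S' := by rw [← e1, ← e2]
      subst e3
      rw [Finset.mem_image]
      refine ⟨a, Finset.mem_univ _, ?_⟩
      rw [Prod.mk.injEq]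
      refine ⟨rfl, ?_⟩
      rw [← hS.1, hS'.2]
    calc (P1 ∩ P2).card ≤ _ := Finset.card_le_card hsub
      _ ≤ (Finset.univ : Finset {A : Finset α // A ∈ F}).card := Finset.card_image_le
      _ = F.card := by rw [Finset.card_univ, Fintype.card_coe]
  have hunion : (P1 ∪ P2).card ≤ (Finset.univ.filter (fun p : {A : Finset α // A ∈ F} × {A : Finset α // A ∈ F} => Rel ra rb p.1 p.2)).card := by
    apply Finset.card_le_card
    intro p hp
    rw [Finset.mem_filter]
    refine ⟨Finset.mem_univ _, ?_⟩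
    rw [Finset.mem_union, hP1, hP2, Finset.mem_image, Finset.mem_image] at hp
    rcases hp with ⟨S, -, hS⟩ | ⟨S, -, hS⟩
    · rw [← hS]; exact rel_rep h S
    · rw [← hS]; exact (rel_rep h S).symm
  have hcard := Finset.card_union_add_card_inter P1 P2
  have h2 : 2 * 2 ^ Fintype.card α ≤ (Finset.univ.filter (fun p : {A : Finset α // A ∈ F} × {A : Finset α // A ∈ F} => Rel ra rb p.1 p.2)).card + F.card := by
    omega
  have h3 : 2 * (2 : ℝ) ^ (Fintype.card α) ≤
      ((Finset.univ.filter (fun p : {A : Finset α // A ∈ F} × {A : Finset α // A ∈ F} => Rel ra rb p.1 p.2)).card : ℝ) + F.card := by exact_mod_cast h2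
  linarith

open Classical in
theorem bad_count {α : Type} [Fintype α] [DecidableEq α] (F : Finset (Finset α))
    (ra rb : Finset α → {A : Finset α // A ∈ F}) (t : ℕ) [NeZero t]
    (Bad : (Fin t → Finset α) → Prop) :
    (Finset.univ.filter (fun p : (Fin t → {A : Finset α // A ∈ F}) × (Fin t → {A : Finset α // A ∈ F}) =>
      (∀ i j, Rel ra rb (p.1 i) (p.2 j)) ∧ ∃ s : Fin t, Bad (fun i => (p.1 i : Finset α) ∪ p.2 (i + s)))).card
      ≤ t * (2 ^ t * (Finset.univ.filter Bad).card) := by
  let Φ : Fin t → (Fin t → Finset α) × (Fin t → Bool) → (Fin t → {A : Finset α // A ∈ F}) × (Fin t → {A : Finset α // A ∈ F}) := fun s q =>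
    (fun i => if q.2 i then ra (q.1 i) else rb (q.1 i),
     fun j => if q.2 (j - s) then rb (q.1 (j - s)) else ra (q.1 (j - s)))
  have hsub : (Finset.univ.filter (fun p : (Fin t → {A : Finset α // A ∈ F}) × (Fin t → {A : Finset α // A ∈ F}) =>
      (∀ i j, Rel ra rb (p.1 i) (p.2 j)) ∧ ∃ s : Fin t, Bad (fun i => (p.1 i : Finset α) ∪ p.2 (i + s)))) ⊆
      Finset.univ.biUnion (fun s : Fin t => ((Finset.univ.filter Bad) ×ˢ
        (Finset.univ : Finset (Fin t → Bool))).image (Φ s)) := by
    intro p hp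
    rw [Finset.mem_filter] at hp
    obtain ⟨-, hE, s, hs⟩ := hp
    rw [Finset.mem_biUnion]
    refine ⟨s, Finset.mem_univ _, ?_⟩
    rw [Finset.mem_image]
    refine ⟨(fun i => (p.1 i : Finset α) ∪ p.2 (i + s),
      fun i => decide (p.1 i = ra ((p.1 i : Finset α) ∪ p.2 (i + s)) ∧
        p.2 (i + s) = rb ((p.1 i : Finset α) ∪ p.2 (i + s)))), ?_, ?_⟩
    · rw [Finset.mem_product, Finset.mem_filter]
      exact ⟨⟨Finset.mem_univ _, hs⟩, Finset.mem_univ _⟩
    · have key : ∀ i : Fin t, p.1 i = (if decide (p.1 i = ra ((p.1 i : Finset α) ∪ p.2 (i + s)) ∧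
          p.2 (i + s) = rb ((p.1 i : Finset α) ∪ p.2 (i + s))) = true then
            ra ((p.1 i : Finset α) ∪ p.2 (i + s)) else rb ((p.1 i : Finset α) ∪ p.2 (i + s))) ∧
          p.2 (i + s) = (if decide (p.1 i = ra ((p.1 i : Finset α) ∪ p.2 (i + s)) ∧
          p.2 (i + s) = rb ((p.1 i : Finset α) ∪ p.2 (i + s))) = true then
            rb ((p.1 i : Finset α) ∪ p.2 (i + s)) else ra ((p.1 i : Finset α) ∪ p.2 (i + s))) := by
        intro i
        by_cases hc : p.1 i = ra ((p.1 i : Finset α) ∪ p.2 (i + s)) ∧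
          p.2 (i + s) = rb ((p.1 i : Finset α) ∪ p.2 (i + s))
        · rw [decide_eq_true hc]
          exact ⟨hc.1, hc.2⟩
        · rw [decide_eq_false hc]
          rcases hE i (i + s) with h1 | h1
          · exact absurd h1 hc
          · exact ⟨h1.1, h1.2⟩
      ext1
      · funext i
        exact ((key i).1).symm
      · funext j
        have := (key (j - s)).2
        rw [sub_add_cancel] at this
        show (if _ then _ else _) = p.2 j
        simp only [sub_add_cancel]
        exact this.symm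
  calc _ ≤ (Finset.univ.biUnion (fun s : Fin t => ((Finset.univ.filter Bad) ×ˢ
        (Finset.univ : Finset (Fin t → Bool))).image (Φ s))).card := Finset.card_le_card hsub
    _ ≤ ∑ s : Fin t, (((Finset.univ.filter Bad) ×ˢ
        (Finset.univ : Finset (Fin t → Bool))).image (Φ s)).card := Finset.card_biUnion_le
    _ ≤ ∑ s : Fin t, (2 ^ t * (Finset.univ.filter Bad).card) := by
        apply Finset.sum_le_sum
        intro s _
        calc _ ≤ ((Finset.univ.filter Bad) ×ˢ (Finset.univ : Finset (Fin t → Bool))).card := Finset.card_image_le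
          _ = 2 ^ t * (Finset.univ.filter Bad).card := by
              rw [Finset.card_product, Finset.card_univ, Fintype.card_fun, Fintype.card_bool, Fintype.card_fin,
                mul_comm]
    _ = t * (2 ^ t * (Finset.univ.filter Bad).card) := by
        rw [Finset.sum_const, Finset.card_univ, Fintype.card_fin, smul_eq_mul]

end Helper650_UB
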