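import Mathlib
import Pool.Agent.Helper650_UB.Reps
import Pool.Agent.Helper650_UB.CountBad
import Pool.Agent.Helper650_UB.Count
set_option autoImplicit false
set_option maxHeartbeats 4000000

/-! Many triangles give a typical complete tripartite subgraph. -/

namespace Helper650_UB

open Finset

/-- All unions of the tuple are spread evenly over every large set `J` on average. -/
def Typ {α : Type} [Fintype α] [DecidableEq α] {t : ℕ} (θ : ℝ) (U : Fin t → Finset α) : Prop :=
  ∀ J : Finset α, θ * (Fintype.card α : ℝ) ≤ (J.card : ℝ) →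
    |(∑ i, (((U i) ∩ J).card : ℝ)) - t * J.card / 2| ≤ θ * t * J.card

theorem blow_three {V : Type} [Fintype V] (T : V → V → V → ℝ) (hT : ∀ a b c, 0 ≤ T a b c) (κ : ℝ) (hκ : 0 ≤ κ)
    (h : κ * (Fintype.card V : ℝ) ^ 3 ≤ ∑ a, ∑ b, ∑ c, T a b c) (t : ℕ) (ht : 0 < t) :
    ((κ ^ t) ^ t) ^ t * ((Fintype.card V : ℝ) ^ t) ^ 3 ≤
      ∑ x : Fin t → V, ∑ y : Fin t → V, ∑ z : Fin t → V, ∏ k, ∏ j, ∏ i, T (x i) (y j) (z k) := by
  have s1 := blow_step (X := V × V) (Y := V) (fun p a => T a p.1 p.2) (fun p a => hT _ _ _) κ hκ (by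
    rw [Fintype.card_prod]
    push_cast
    calc κ * ((Fintype.card V : ℝ) * Fintype.card V) * Fintype.card V = κ * (Fintype.card V : ℝ) ^ 3 := by ring
      _ ≤ ∑ a, ∑ b, ∑ c, T a b c := h
      _ = ∑ p : V × V, ∑ a, T a p.1 p.2 := by
          rw [Finset.sum_comm' (t' := Finset.univ) (s' := fun _ => Finset.univ) (h := by simp)]
          rw [Fintype.sum_prod_type]
          apply Finset.sum_congr rfl
          intro b _
          rw [Finset.sum_comm]) t ht
  have s2 := blow_step (X := (Fin t → V) × V) (Y := V) (fun p b => ∏ i, T (p.1 i) b p.2)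
    (fun p b => Finset.prod_nonneg (fun i _ => hT _ _ _)) (κ ^ t) (pow_nonneg hκ t) (by
    rw [Fintype.card_prod, Fintype.card_fun, Fintype.card_fin]
    rw [Fintype.card_prod] at s1
    push_cast at s1 ⊢
    calc κ ^ t * ((Fintype.card V : ℝ) ^ t * Fintype.card V) * Fintype.card V
        = κ ^ t * ((Fintype.card V : ℝ) * Fintype.card V) * Fintype.card V ^ t := by ring
      _ ≤ _ := s1
      _ = ∑ p : (Fin t → V) × V, ∑ b, ∏ i, T (p.1 i) b p.2 := by
          rw [Fintype.sum_prod_type, Fintype.sum_prod_type]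
          -- sum_b sum_c sum_x = sum_x sum_c sum_b
          rw [Finset.sum_comm]
          simp only
          rw [Finset.sum_comm' (s := (Finset.univ : Finset (Fin t → V))) (t := fun _ => (Finset.univ : Finset V))
            (t' := Finset.univ) (s' := fun _ => Finset.univ) (h := by simp)]
          apply Finset.sum_congr rfl
          intro c _
          rw [Finset.sum_comm]) t ht
  have s3 := blow_step (X := (Fin t → V) × (Fin t → V)) (Y := V)
    (fun p c => ∏ j, ∏ i, T (p.1 i) (p.2 j) c)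
    (fun p c => Finset.prod_nonneg (fun j _ => Finset.prod_nonneg (fun i _ => hT _ _ _)))
    ((κ ^ t) ^ t) (pow_nonneg (pow_nonneg hκ t) t) (by
    rw [Fintype.card_prod, Fintype.card_fun, Fintype.card_fin]
    rw [Fintype.card_prod, Fintype.card_fun, Fintype.card_fin] at s2
    push_cast at s2 ⊢
    calc (κ ^ t) ^ t * ((Fintype.card V : ℝ) ^ t * (Fintype.card V : ℝ) ^ t) * Fintype.card V
        = (κ ^ t) ^ t * ((Fintype.card V : ℝ) ^ t * Fintype.card V) * Fintype.card V ^ t := by ring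
      _ ≤ _ := s2
      _ = ∑ p : (Fin t → V) × (Fin t → V), ∑ c, ∏ j, ∏ i, T (p.1 i) (p.2 j) c := by
          rw [Fintype.sum_prod_type, Fintype.sum_prod_type]
          apply Finset.sum_congr rfl
          intro x _
          rw [Finset.sum_comm]) t ht
  rw [Fintype.card_prod, Fintype.card_fun, Fintype.card_fin] at s3
  push_cast at s3
  calc ((κ ^ t) ^ t) ^ t * ((Fintype.card V : ℝ) ^ t) ^ 3
      = ((κ ^ t) ^ t) ^ t * ((Fintype.card V : ℝ) ^ t * (Fintype.card V : ℝ) ^ t) * Fintype.card V ^ t := by ring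
    _ ≤ _ := s3
    _ = _ := by rw [Fintype.sum_prod_type]

/-- The union tuple is bad: some large set sees a wrong average. -/
def Bad {α : Type} [Fintype α] [DecidableEq α] {t : ℕ} (θ : ℝ) (U : Fin t → Finset α) : Prop :=
  ∃ J : Finset α, θ * (Fintype.card α : ℝ) ≤ (J.card : ℝ) ∧
        θ * t * J.card < |(∑ i, (((U i) ∩ J).card : ℝ)) - t * J.card / 2|

theorem typ_of_not_bad {α : Type} [Fintype α] [DecidableEq α] {t : ℕ} (θ : ℝ) (U : Fin t → Finset α)
    (hU : ¬ Bad θ U) : Typ θ U := by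
  intro J hJ
  by_contra hc
  exact hU ⟨J, hJ, not_le.mp hc⟩

/-- All pairs are related, and some shift gives a bad tuple of unions. -/
def BP {α : Type} [Fintype α] [DecidableEq α] {F : Finset (Finset α)} (ra rb : Finset α → {A : Finset α // A ∈ F})
    {t : ℕ} [NeZero t] (θ : ℝ) (x y : Fin t → {A : Finset α // A ∈ F}) : Prop :=
  (∀ i j, Rel ra rb (x i) (y j)) ∧ ∃ s : Fin t, Bad θ (fun i => (x i : Finset α) ∪ y (i + s))

open Classical in
theorem bp_count {α : Type} [Fintype α] [DecidableEq α] (F : Finset (Finset α))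
    (ra rb : Finset α → {A : Finset α // A ∈ F}) (h : ∀ S, (ra S : Finset α) ∪ rb S = S)
    (t : ℕ) [NeZero t] (θ : ℝ) (hθ : 0 < θ) (ht : 1 ≤ θ ^ 3 * t) :
    ∑ x : (Fin t → {A : Finset α // A ∈ F}), ∑ y : (Fin t → {A : Finset α // A ∈ F}),
      (if BP ra rb θ x y then (1 : ℝ) else 0) ≤ t * 2 ^ t * (2 * ((F.card : ℝ) ^ t) ^ 2 / 2 ^ (Fintype.card α)) := by
  have h1 := bad_count F ra rb t (fun U => Bad θ U)
  have h2 := count_bad (α := α) t θ hθ ht
  have h3 : ((Finset.univ.filter (fun U : Fin t → Finset α => Bad θ U)).card : ℝ) ≤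
      2 * 2 ^ (Fintype.card α * t) / 2 ^ (Fintype.card α) := by
    refine le_trans (le_of_eq ?_) h2
    congr 2
    ext U
    simp only [Finset.mem_filter, Bad]
  have h4 : ∑ x : (Fin t → {A : Finset α // A ∈ F}), ∑ y : (Fin t → {A : Finset α // A ∈ F}),
      (if BP ra rb θ x y then (1 : ℝ) else 0) =
      ((Finset.univ.filter (fun p : (Fin t → {A : Finset α // A ∈ F}) × (Fin t → {A : Finset α // A ∈ F}) =>
    (∀ i j, Rel ra rb (p.1 i) (p.2 j)) ∧
      ∃ s : Fin t, Bad θ (fun i => (p.1 i : Finset α) ∪ p.2 (i + s)))).card : ℝ) := by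
    rw [← Finset.sum_boole, Fintype.sum_prod_type]
    apply Finset.sum_congr rfl
    intro x _
    apply Finset.sum_congr rfl
    intro y _
    by_cases hb : BP ra rb θ x y
    · rw [if_pos hb, if_pos]
      exact hb
    · rw [if_neg hb, if_neg]
      exact hb
  rw [h4]
  have h5 : (2 : ℝ) ^ (Fintype.card α * t) ≤ ((F.card : ℝ) ^ t) ^ 2 := by
    calc (2 : ℝ) ^ (Fintype.card α * t) = ((2 : ℝ) ^ (Fintype.card α)) ^ t := by rw [pow_mul]
      _ ≤ ((F.card : ℝ) ^ 2) ^ t := pow_le_pow_left₀ (by positivity) (two_pow_le_sq F ra rb h) t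
      _ = ((F.card : ℝ) ^ t) ^ 2 := by rw [← pow_mul, ← pow_mul, mul_comm]
  calc ((Finset.univ.filter (fun p : (Fin t → {A : Finset α // A ∈ F}) × (Fin t → {A : Finset α // A ∈ F}) =>
    (∀ i j, Rel ra rb (p.1 i) (p.2 j)) ∧
      ∃ s : Fin t, Bad θ (fun i => (p.1 i : Finset α) ∪ p.2 (i + s)))).card : ℝ)
      ≤ ((t * (2 ^ t * (Finset.univ.filter (fun U : Fin t → Finset α => Bad θ U)).card) : ℕ) : ℝ) := by
        exact_mod_cast h1
    _ = t * 2 ^ t * ((Finset.univ.filter (fun U : Fin t → Finset α => Bad θ U)).card : ℝ) := by push_cast; ring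
    _ ≤ t * 2 ^ t * (2 * 2 ^ (Fintype.card α * t) / 2 ^ (Fintype.card α)) := by gcongr
    _ ≤ t * 2 ^ t * (2 * ((F.card : ℝ) ^ t) ^ 2 / 2 ^ (Fintype.card α)) := by gcongr

open Classical in
theorem exists_typical {α : Type} [Fintype α] [DecidableEq α] (F : Finset (Finset α))
    (ra rb : Finset α → {A : Finset α // A ∈ F}) (h : ∀ S, (ra S : Finset α) ∪ rb S = S)
    (Q : {A : Finset α // A ∈ F} → Prop) (κ : ℝ) (hκ : 0 < κ)
    (hT : κ * (F.card : ℝ) ^ 3 ≤ ∑ a : {A : Finset α // A ∈ F}, ∑ b : {A : Finset α // A ∈ F},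
      ∑ c : {A : Finset α // A ∈ F},
        (if Q a ∧ Rel ra rb a b ∧ Rel ra rb b c ∧ Rel ra rb a c then (1 : ℝ) else 0))
    (t : ℕ) [NeZero t] (θ : ℝ) (hθ : 0 < θ) (ht : 1 ≤ θ ^ 3 * t)
    (hbig : 6 * t * 2 ^ t < ((κ ^ t) ^ t) ^ t * (2 : ℝ) ^ (Fintype.card α)) :
    ∃ x y z : Fin t → {A : Finset α // A ∈ F}, (∀ i, Q (x i)) ∧
      (∀ s, Typ θ (fun i => (x i : Finset α) ∪ y (i + s))) ∧
      (∀ s, Typ θ (fun i => (y i : Finset α) ∪ z (i + s))) ∧
      (∀ s, Typ θ (fun i => (x i : Finset α) ∪ z (i + s))) := by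
  have hF : 0 < F.card := by
    have := (ra ∅).2
    exact Finset.card_pos.mpr ⟨_, this⟩
  have hm : (0 : ℝ) < F.card := by exact_mod_cast hF
  have ht0 : 0 < t := NeZero.pos t
  have hBPcount := bp_count F ra rb h t θ hθ ht
  -- blow up
  have hblow := blow_three (V := {A : Finset α // A ∈ F})
    (fun a b c => (if Q a ∧ Rel ra rb a b ∧ Rel ra rb b c ∧ Rel ra rb a c then (1 : ℝ) else 0))
    (fun a b c => by split_ifs <;> norm_num) κ hκ.le (by rw [Fintype.card_coe]; exact hT) t ht0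
  rw [Fintype.card_coe] at hblow
  by_contra hcon
  -- every product is bounded by the indicators of bad pairs
  have hpt : ∀ x y z : Fin t → {A : Finset α // A ∈ F},
      (∏ k, ∏ j, ∏ i, (if Q (x i) ∧ Rel ra rb (x i) (y j) ∧ Rel ra rb (y j) (z k) ∧ Rel ra rb (x i) (z k)
        then (1 : ℝ) else 0)) ≤
      (if BP ra rb θ x y then (1 : ℝ) else 0) + (if BP ra rb θ y z then (1 : ℝ) else 0) + (if BP ra rb θ x z then (1 : ℝ) else 0) := by
    intro x y z
    have hnn : ∀ P : Prop, (0 : ℝ) ≤ (if P then (1 : ℝ) else 0) := by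
      intro P; split_ifs <;> norm_num
    by_cases hall : ∀ i j k, Q (x i) ∧ Rel ra rb (x i) (y j) ∧ Rel ra rb (y j) (z k) ∧ Rel ra rb (x i) (z k)
    · have hle : (∏ k, ∏ j, ∏ i, (if Q (x i) ∧ Rel ra rb (x i) (y j) ∧ Rel ra rb (y j) (z k) ∧
          Rel ra rb (x i) (z k) then (1 : ℝ) else 0)) = 1 := by
        apply Finset.prod_eq_one
        intro k _
        apply Finset.prod_eq_one
        intro j _
        apply Finset.prod_eq_one
        intro i _
        rw [if_pos (hall i j k)]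
      rw [hle]
      have hsome : BP ra rb θ x y ∨ BP ra rb θ y z ∨ BP ra rb θ x z := by
        by_contra hno
        rw [not_or, not_or] at hno
        apply hcon
        have i0 : Fin t := ⟨0, ht0⟩
        refine ⟨x, y, z, fun i => (hall i i0 i0).1, ?_, ?_, ?_⟩
        · intro s
          apply typ_of_not_bad
          intro hb
          exact hno.1 ⟨fun i j => (hall i j i0).2.1, s, hb⟩
        · intro s
          apply typ_of_not_bad
          intro hb
          exact hno.2.1 ⟨fun j k => (hall i0 j k).2.2.1, s, hb⟩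
        · intro s
          apply typ_of_not_bad
          intro hb
          exact hno.2.2 ⟨fun i k => (hall i i0 k).2.2.2, s, hb⟩
      have n1 := hnn (BP ra rb θ x y)
      have n2 := hnn (BP ra rb θ y z)
      have n3 := hnn (BP ra rb θ x z)
      rcases hsome with hs | hs | hs
      · rw [if_pos hs]; linarith
      · rw [if_pos hs]; linarith
      · rw [if_pos hs]; linarith
    · have hz : (∏ k, ∏ j, ∏ i, (if Q (x i) ∧ Rel ra rb (x i) (y j) ∧ Rel ra rb (y j) (z k) ∧
          Rel ra rb (x i) (z k) then (1 : ℝ) else 0)) = 0 := by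
        push Not at hall
        obtain ⟨i, j, k, hijk⟩ := hall
        apply Finset.prod_eq_zero (Finset.mem_univ k)
        apply Finset.prod_eq_zero (Finset.mem_univ j)
        apply Finset.prod_eq_zero (Finset.mem_univ i)
        rw [if_neg]
        rintro ⟨h1, h2, h3, h4⟩
        exact hijk h1 h2 h3 h4
      rw [hz]
      have n1 := hnn (BP ra rb θ x y)
      have n2 := hnn (BP ra rb θ y z)
      have n3 := hnn (BP ra rb θ x z)
      linarith
  have hcardt : ((Finset.univ : Finset (Fin t → {A : Finset α // A ∈ F})).card : ℝ) = (F.card : ℝ) ^ t := by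
    rw [Finset.card_univ, Fintype.card_fun, Fintype.card_fin, Fintype.card_coe]
    push_cast
    rfl
  set S0 := ∑ x : (Fin t → {A : Finset α // A ∈ F}), ∑ y : (Fin t → {A : Finset α // A ∈ F}),
      (if BP ra rb θ x y then (1 : ℝ) else 0) with hS0
  have hsum3 : ∑ x : Fin t → {A : Finset α // A ∈ F}, ∑ y : Fin t → {A : Finset α // A ∈ F},
      ∑ z : Fin t → {A : Finset α // A ∈ F},
      ((if BP ra rb θ x y then (1 : ℝ) else 0) + (if BP ra rb θ y z then (1 : ℝ) else 0) + (if BP ra rb θ x z then (1 : ℝ) else 0)) =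
      3 * ((F.card : ℝ) ^ t * S0) := by
    simp only [Finset.sum_add_distrib]
    have e1 : ∑ x : Fin t → {A : Finset α // A ∈ F}, ∑ y : Fin t → {A : Finset α // A ∈ F},
        ∑ _z : Fin t → {A : Finset α // A ∈ F}, (if BP ra rb θ x y then (1 : ℝ) else 0) = (F.card : ℝ) ^ t * S0 := by
      simp only [Finset.sum_const, nsmul_eq_mul, hcardt, ← Finset.mul_sum]
      rw [hS0]
    have e2 : ∑ _x : Fin t → {A : Finset α // A ∈ F}, ∑ y : Fin t → {A : Finset α // A ∈ F},
        ∑ z : Fin t → {A : Finset α // A ∈ F}, (if BP ra rb θ y z then (1 : ℝ) else 0) = (F.card : ℝ) ^ t * S0 := by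
      rw [Finset.sum_const, nsmul_eq_mul, hcardt]
    have e3 : ∑ x : Fin t → {A : Finset α // A ∈ F}, ∑ _y : Fin t → {A : Finset α // A ∈ F},
        ∑ z : Fin t → {A : Finset α // A ∈ F}, (if BP ra rb θ x z then (1 : ℝ) else 0) = (F.card : ℝ) ^ t * S0 := by
      have : ∀ x : Fin t → {A : Finset α // A ∈ F}, ∑ _y : Fin t → {A : Finset α // A ∈ F},
        ∑ z : Fin t → {A : Finset α // A ∈ F}, (if BP ra rb θ x z then (1 : ℝ) else 0) =
        (F.card : ℝ) ^ t * ∑ z : Fin t → {A : Finset α // A ∈ F}, (if BP ra rb θ x z then (1 : ℝ) else 0) := by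
        intro x
        rw [Finset.sum_const, nsmul_eq_mul, hcardt]
      rw [Finset.sum_congr rfl (fun x _ => this x), ← Finset.mul_sum]
    rw [e1, e2, e3]
    ring
  have hfin : ((κ ^ t) ^ t) ^ t * ((F.card : ℝ) ^ t) ^ 3 ≤
      3 * ((F.card : ℝ) ^ t * (t * 2 ^ t * (2 * ((F.card : ℝ) ^ t) ^ 2 / 2 ^ (Fintype.card α)))) := by
    calc _ ≤ _ := hblow
      _ ≤ ∑ x : Fin t → {A : Finset α // A ∈ F}, ∑ y : Fin t → {A : Finset α // A ∈ F},
      ∑ z : Fin t → {A : Finset α // A ∈ F},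
      ((if BP ra rb θ x y then (1 : ℝ) else 0) + (if BP ra rb θ y z then (1 : ℝ) else 0) + (if BP ra rb θ x z then (1 : ℝ) else 0)) := by
          apply Finset.sum_le_sum
          intro x _
          apply Finset.sum_le_sum
          intro y _
          apply Finset.sum_le_sum
          intro z _
          exact hpt x y z
      _ = 3 * ((F.card : ℝ) ^ t * S0) := hsum3
      _ ≤ _ := by gcongr
  have hM : (0 : ℝ) < ((F.card : ℝ) ^ t) ^ 3 := by positivity
  have hP : (0 : ℝ) < 2 ^ (Fintype.card α) := by positivity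
  have hfin2 : (((κ ^ t) ^ t) ^ t * (2 : ℝ) ^ (Fintype.card α)) * ((F.card : ℝ) ^ t) ^ 3 ≤
      (6 * t * 2 ^ t) * ((F.card : ℝ) ^ t) ^ 3 := by
    have e1 : 3 * ((F.card : ℝ) ^ t * (t * 2 ^ t * (2 * ((F.card : ℝ) ^ t) ^ 2 / 2 ^ (Fintype.card α)))) *
        2 ^ (Fintype.card α) = (6 * t * 2 ^ t) * ((F.card : ℝ) ^ t) ^ 3 := by
      field_simp
      ring
    calc _ = ((κ ^ t) ^ t) ^ t * ((F.card : ℝ) ^ t) ^ 3 * 2 ^ (Fintype.card α) := by ring
      _ ≤ 3 * ((F.card : ℝ) ^ t * (t * 2 ^ t * (2 * ((F.card : ℝ) ^ t) ^ 2 / 2 ^ (Fintype.card α)))) *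
        2 ^ (Fintype.card α) := by gcongr
      _ = _ := e1
  have := le_of_mul_le_mul_right hfin2 hM
  linarith

end Helper650_UB
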