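import Mathlib
import Pool.Agent.Helper650_UB.Typical
import Pool.Agent.Helper650_UB.Avg
import Pool.Agent.Helper650_UB.PairAvg
set_option autoImplicit false
set_option maxHeartbeats 4000000

/-! Families with fewer than `(2 - ε) 2^n` members all of whose pairwise unions cover the power set of a `2n`-set. -/

namespace Helper650_UB

open Finset

open Classical in
theorem avg_close {α : Type} [Fintype α] [DecidableEq α] (F : Finset (Finset α))
    (ra rb : Finset α → {A : Finset α // A ∈ F}) (h : ∀ S, (ra S : Finset α) ∪ rb S = S)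
    (Q : {A : Finset α // A ∈ F} → Prop) (κ : ℝ) (hκ : 0 < κ)
    (hT : κ * (F.card : ℝ) ^ 3 ≤ ∑ a : {A : Finset α // A ∈ F}, ∑ b : {A : Finset α // A ∈ F},
      ∑ c : {A : Finset α // A ∈ F},
        (if Q a ∧ Rel ra rb a b ∧ Rel ra rb b c ∧ Rel ra rb a c then (1 : ℝ) else 0))
    (t : ℕ) [NeZero t] (θ : ℝ) (hθ : 0 < θ) (hθ8 : θ ≤ 1 / 8) (ht : 1 ≤ θ ^ 3 * t)
    (hbig : 6 * t * 2 ^ t < ((κ ^ t) ^ t) ^ t * (2 : ℝ) ^ (Fintype.card α)) :
    ∃ x : Fin t → {A : Finset α // A ∈ F}, (∀ i, Q (x i)) ∧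
      |((Fintype.card α : ℝ) - (∑ i, ((x i : Finset α).card : ℝ)) / t) - Fintype.card α * (√2 / 2)| ≤
        15 * θ * Fintype.card α := by
  obtain ⟨x, y, z, hQ, h1, h2, h3⟩ := exists_typical F ra rb h Q κ hκ hT t θ hθ ht hbig
  refine ⟨x, hQ, ?_⟩
  rw [← sum_frac (fun i => (x i : Finset α))]
  apply avg_of_pairs (frac (fun i => (x i : Finset α))) (frac (fun i => (y i : Finset α)))
    (frac (fun i => (z i : Finset α))) θ hθ hθ8
  · exact fun j => ⟨frac_nonneg _ j, frac_le_one _ j⟩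
  · exact fun j => ⟨frac_nonneg _ j, frac_le_one _ j⟩
  · exact fun j => ⟨frac_nonneg _ j, frac_le_one _ j⟩
  · intro J hJ
    exact pair_avg θ (fun i => (x i : Finset α)) (fun i => (y i : Finset α)) h1 J hJ
  · intro J hJ
    exact pair_avg θ (fun i => (y i : Finset α)) (fun i => (z i : Finset α)) h2 J hJ
  · intro J hJ
    exact pair_avg θ (fun i => (x i : Finset α)) (fun i => (z i : Finset α)) h3 J hJ

/-- The two one-sided cases are impossible. -/
theorem no_side (n : ℕ) (F : Finset (Finset (Fin (2 * n))))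
    (η θ : ℝ) (hθη : 30 * θ ≤ η) (t : ℕ) [NeZero t]
    (x : Fin t → {A : Finset (Fin (2 * n)) // A ∈ F})
    (hx : |((Fintype.card (Fin (2 * n)) : ℝ) - (∑ i, ((x i : Finset (Fin (2 * n))).card : ℝ)) / t) -
      Fintype.card (Fin (2 * n)) * (√2 / 2)| ≤ 15 * θ * Fintype.card (Fin (2 * n))) :
    (¬ ∀ i, (2 - √2) * n + η * n < ((x i : Finset (Fin (2 * n))).card : ℝ)) ∧
    (¬ ∀ i, ((x i : Finset (Fin (2 * n))).card : ℝ) < (2 - √2) * n - η * n) := by
  have ht : (0 : ℝ) < t := by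
    have := NeZero.pos t
    exact_mod_cast this
  have hne : (Finset.univ : Finset (Fin t)).Nonempty := ⟨⟨0, NeZero.pos t⟩, Finset.mem_univ _⟩
  rw [Fintype.card_fin] at hx
  push_cast at hx
  set a : ℝ := (∑ i, ((x i : Finset (Fin (2 * n))).card : ℝ)) / t with ha
  have hn : (0 : ℝ) ≤ n := Nat.cast_nonneg n
  have hηn : 30 * θ * n ≤ η * n := mul_le_mul_of_nonneg_right hθη hn
  rw [abs_le] at hx
  constructor
  · intro hall
    have h1 : ∑ _i : Fin t, ((2 - √2) * n + η * n) < ∑ i, ((x i : Finset (Fin (2 * n))).card : ℝ) :=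
      Finset.sum_lt_sum_of_nonempty hne (fun i _ => hall i)
    rw [Finset.sum_const, Finset.card_univ, Fintype.card_fin, nsmul_eq_mul] at h1
    have h2 : (2 - √2) * n + η * n < a := by
      rw [ha, lt_div_iff₀ ht]
      linarith
    nlinarith [hx.1, hx.2]
  · intro hall
    have h1 : ∑ i, ((x i : Finset (Fin (2 * n))).card : ℝ) < ∑ _i : Fin t, ((2 - √2) * n - η * n) :=
      Finset.sum_lt_sum_of_nonempty hne (fun i _ => hall i)
    rw [Finset.sum_const, Finset.card_univ, Fintype.card_fin, nsmul_eq_mul] at h1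
    have h2 : a < (2 - √2) * n - η * n := by
      rw [ha, div_lt_iff₀ ht]
      linarith
    nlinarith [hx.1, hx.2]

end Helper650_UB
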