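import Mathlib
import Pool.Agent.Helper650_UB.Main
set_option autoImplicit false
set_option maxHeartbeats 4000000

namespace Helper650_UB

open Finset

open Classical in
theorem split_triangles {V : Type} [Fintype V] (T : V → V → V → Prop) (G P M : V → Prop)
    (hcov : ∀ a, G a ∨ P a ∨ M a) (κ : ℝ)
    (hT : 4 * κ * (Fintype.card V : ℝ) ^ 3 ≤ ∑ a, ∑ b, ∑ c, (if T a b c then (1 : ℝ) else 0))
    (hG : ((Finset.univ.filter G).card : ℝ) ≤ 2 * κ * Fintype.card V) :
    κ * (Fintype.card V : ℝ) ^ 3 ≤ ∑ a, ∑ b, ∑ c, (if P a ∧ T a b c then (1 : ℝ) else 0) ∨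
    κ * (Fintype.card V : ℝ) ^ 3 ≤ ∑ a, ∑ b, ∑ c, (if M a ∧ T a b c then (1 : ℝ) else 0) := by
  by_contra hcon
  rw [not_or, not_le, not_le] at hcon
  obtain ⟨h1, h2⟩ := hcon
  have hpt : ∀ a b c, (if T a b c then (1 : ℝ) else 0) ≤
      (if G a then (1 : ℝ) else 0) + (if P a ∧ T a b c then (1 : ℝ) else 0) +
        (if M a ∧ T a b c then (1 : ℝ) else 0) := by
    intro a b c
    have n1 : (0 : ℝ) ≤ (if G a then (1 : ℝ) else 0) := by split_ifs <;> norm_num
    have n2 : (0 : ℝ) ≤ (if P a ∧ T a b c then (1 : ℝ) else 0) := by split_ifs <;> norm_num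
    have n3 : (0 : ℝ) ≤ (if M a ∧ T a b c then (1 : ℝ) else 0) := by split_ifs <;> norm_num
    by_cases hT : T a b c
    · rw [if_pos hT]
      rcases hcov a with hg | hp | hm
      · rw [if_pos hg]; linarith
      · rw [if_pos (⟨hp, hT⟩ : P a ∧ T a b c)]; linarith
      · rw [if_pos (⟨hm, hT⟩ : M a ∧ T a b c)]; linarith
    · rw [if_neg hT]; linarith
  have hsum : ∑ a, ∑ b, ∑ c, (if T a b c then (1 : ℝ) else 0) ≤
      (∑ a : V, ∑ _b : V, ∑ _c : V, (if G a then (1 : ℝ) else 0)) +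
      (∑ a, ∑ b, ∑ c, (if P a ∧ T a b c then (1 : ℝ) else 0)) +
      (∑ a, ∑ b, ∑ c, (if M a ∧ T a b c then (1 : ℝ) else 0)) := by
    rw [← Finset.sum_add_distrib, ← Finset.sum_add_distrib]
    apply Finset.sum_le_sum
    intro a _
    rw [← Finset.sum_add_distrib, ← Finset.sum_add_distrib]
    apply Finset.sum_le_sum
    intro b _
    rw [← Finset.sum_add_distrib, ← Finset.sum_add_distrib]
    apply Finset.sum_le_sum
    intro c _
    exact hpt a b c
  have hG2 : (∑ a : V, ∑ _b : V, ∑ _c : V, (if G a then (1 : ℝ) else 0)) =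
      ((Finset.univ.filter G).card : ℝ) * (Fintype.card V : ℝ) ^ 2 := by
    simp only [Finset.sum_const, Finset.card_univ, nsmul_eq_mul, ← Finset.mul_sum]
    rw [Finset.sum_boole]
    ring
  rw [hG2] at hsum
  have hG3 : ((Finset.univ.filter G).card : ℝ) * (Fintype.card V : ℝ) ^ 2 ≤
      2 * κ * (Fintype.card V : ℝ) ^ 3 := by
    calc _ ≤ (2 * κ * Fintype.card V) * (Fintype.card V : ℝ) ^ 2 :=
          mul_le_mul_of_nonneg_right hG (by positivity)
      _ = _ := by ring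
  linarith

open Classical in
theorem core (ε η : ℝ) (hε : 0 < ε) (hε1 : ε ≤ 1) (hη : 0 < η) :
    ∃ n₀ : ℕ, ∀ n : ℕ, n₀ ≤ n → ∀ F : Finset (Finset (Fin (2 * n))),
      (∀ S : Finset (Fin (2 * n)), ∃ A ∈ F, ∃ B ∈ F, A ∪ B = S) →
      (F.card : ℝ) ≤ (2 - ε) * 2 ^ n →
      ε / 16 * 2 ^ n ≤ ((F.filter (fun A => |(A.card : ℝ) - (2 - √2) * n| ≤ η * n)).card : ℝ) := by
  obtain ⟨θ, hθ, hθ8, hθη⟩ : ∃ θ : ℝ, 0 < θ ∧ θ ≤ 1 / 8 ∧ 30 * θ ≤ η := by
    refine ⟨min (η / 30) (1 / 8), lt_min (by positivity) (by norm_num), min_le_right _ _, ?_⟩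
    have := min_le_left (η / 30) (1 / 8 : ℝ)
    linarith
  obtain ⟨t, ht⟩ := exists_nat_ge (1 / θ ^ 3)
  have hθ3 : 0 < θ ^ 3 := by positivity
  have ht1 : 1 ≤ θ ^ 3 * t := by
    rw [div_le_iff₀ hθ3] at ht
    linarith
  have ht0 : t ≠ 0 := by
    rintro rfl
    norm_num at ht1
  have : NeZero t := ⟨ht0⟩
  have hκ : 0 < ε / 32 := by positivity
  have hc : 0 < (((ε / 32) ^ t) ^ t) ^ t := by positivity
  obtain ⟨n1, hn1⟩ := pow_unbounded_of_one_lt (6 * t * 2 ^ t / (((ε / 32) ^ t) ^ t) ^ t) (one_lt_two : (1 : ℝ) < 2)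
  obtain ⟨n2, hn2⟩ := pow_unbounded_of_one_lt (2 / ε) (one_lt_two : (1 : ℝ) < 2)
  refine ⟨max n1 n2, ?_⟩
  intro n hn F hF hcard
  by_contra hlt
  rw [not_le] at hlt
  choose A hA B hB hAB using hF
  have hex : ∃ ra rb : Finset (Fin (2 * n)) → {A : Finset (Fin (2 * n)) // A ∈ F},
      ∀ S, (ra S : Finset (Fin (2 * n))) ∪ rb S = S :=
    ⟨fun S => ⟨A S, hA S⟩, fun S => ⟨B S, hB S⟩, hAB⟩
  obtain ⟨ra, rb, h⟩ := hex
  have hN : Fintype.card (Fin (2 * n)) = 2 * n := Fintype.card_fin _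
  have hsq : (2 : ℝ) ^ (2 * n) = (2 ^ n) ^ 2 := by rw [mul_comm, pow_mul]
  have hE := edge_count F ra rb h
  have hm2 := two_pow_le_sq F ra rb h
  rw [hN, hsq] at hE hm2
  have hMge : 2 / ε < (2 : ℝ) ^ n := by
    calc 2 / ε < 2 ^ n2 := hn2
      _ ≤ 2 ^ n := pow_le_pow_right₀ (by norm_num) (le_trans (le_max_right _ _) hn)
  have hbig : 6 * t * 2 ^ t < (((ε / 32) ^ t) ^ t) ^ t * (2 : ℝ) ^ (Fintype.card (Fin (2 * n))) := by
    rw [hN]
    have h1 : 6 * t * 2 ^ t / (((ε / 32) ^ t) ^ t) ^ t < (2 : ℝ) ^ (2 * n) := by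
      calc _ < (2 : ℝ) ^ n1 := hn1
        _ ≤ 2 ^ (2 * n) := pow_le_pow_right₀ (by norm_num) (by
            have := le_trans (le_max_left n1 n2) hn
            omega)
    rw [div_lt_iff₀ hc] at h1
    linarith
  have hMpos : (0 : ℝ) < 2 ^ n := by positivity
  set M : ℝ := (2 : ℝ) ^ n with hM
  set m : ℝ := (F.card : ℝ) with hm
  have hm0 : 0 ≤ m := Nat.cast_nonneg _
  have hMm : M ≤ m := by
    by_contra hc'
    rw [not_le] at hc'
    nlinarith
  have hεM : 2 < ε * M := by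
    rw [div_lt_iff₀ hε] at hMge
    linarith
  -- the triangles
  have htri := triangles (V := {A : Finset (Fin (2 * n)) // A ∈ F}) (Rel ra rb) (fun a b => Rel.symm)
    (1 / 2 + ε / 8) (by linarith) (by
      rw [Fintype.card_coe]
      refine le_trans ?_ hE
      rw [← hm]
      have h1 : m ^ 2 ≤ ((2 - ε) * M) ^ 2 := pow_le_pow_left₀ hm0 hcard 2
      have h2 : (1 / 2 + ε / 8) * m ^ 2 ≤ (1 / 2 + ε / 8) * ((2 - ε) * M) ^ 2 :=
        mul_le_mul_of_nonneg_left h1 (by linarith)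
      have h3 : (1 / 2 + ε / 8) * ((2 - ε) * M) ^ 2 = 2 * M ^ 2 - (3 / 2 * ε - ε ^ 3 / 8) * M ^ 2 := by ring
      have h4 : ε ≤ 3 / 2 * ε - ε ^ 3 / 8 := by nlinarith [mul_pos hε hε, mul_pos (mul_pos hε hε) hε]
      have h5 : ε * M ^ 2 ≤ (3 / 2 * ε - ε ^ 3 / 8) * M ^ 2 :=
        mul_le_mul_of_nonneg_right h4 (by positivity)
      have h6 : 2 * M ≤ ε * M ^ 2 := by nlinarith
      have h7 : m ≤ 2 * M := by nlinarith
      linarith)
  rw [Fintype.card_coe] at htri
  have hsplit := split_triangles (V := {A : Finset (Fin (2 * n)) // A ∈ F})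
    (fun a b c => Rel ra rb a b ∧ Rel ra rb b c ∧ Rel ra rb a c)
    (fun a => |((a : Finset (Fin (2 * n))).card : ℝ) - (2 - √2) * n| ≤ η * n)
    (fun a => (2 - √2) * n + η * n < ((a : Finset (Fin (2 * n))).card : ℝ))
    (fun a => ((a : Finset (Fin (2 * n))).card : ℝ) < (2 - √2) * n - η * n)
    (by
      intro a
      by_cases h1 : |((a : Finset (Fin (2 * n))).card : ℝ) - (2 - √2) * n| ≤ η * n
      · exact Or.inl h1
      · right
        rw [abs_le, not_and_or, not_le, not_le] at h1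
        rcases h1 with h1 | h1
        · right; linarith
        · left; linarith)
    (ε / 32)
    (by
      rw [Fintype.card_coe]
      refine le_trans ?_ (le_trans htri (le_of_eq ?_))
      · rw [← hm]
        apply mul_le_mul_of_nonneg_right _ (by positivity)
        nlinarith
      · congr! 6)
    (by
      rw [Fintype.card_coe]
      have h1 : ((Finset.univ.filter (fun a : {A : Finset (Fin (2 * n)) // A ∈ F} =>
          |((a : Finset (Fin (2 * n))).card : ℝ) - (2 - √2) * n| ≤ η * n)).card) =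
          (F.filter (fun A => |(A.card : ℝ) - (2 - √2) * n| ≤ η * n)).card := by
        apply Finset.card_bij (fun (a : {A : Finset (Fin (2 * n)) // A ∈ F}) _ => a.1)
        · intro a ha
          rw [Finset.mem_filter] at ha ⊢
          exact ⟨a.2, ha.2⟩
        · intro a _ b _ hab
          exact Subtype.ext hab
        · intro b hb
          rw [Finset.mem_filter] at hb
          exact ⟨⟨b, hb.1⟩, Finset.mem_filter.mpr ⟨Finset.mem_univ _, hb.2⟩, rfl⟩
      rw [h1]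
      rw [← hm]
      have h2 : ε / 16 * M ≤ ε / 16 * m := mul_le_mul_of_nonneg_left hMm (by positivity)
      linarith)
  rw [Fintype.card_coe] at hsplit
  rcases hsplit with hs | hs
  · obtain ⟨x, hQ, hx⟩ := avg_close F ra rb h
      (fun a => (2 - √2) * n + η * n < ((a : Finset (Fin (2 * n))).card : ℝ)) (ε / 32) hκ
      (le_trans hs (le_of_eq (by congr! 6))) t θ hθ hθ8 ht1 hbig
    exact (no_side n F η θ hθη t x hx).1 hQ
  · obtain ⟨x, hQ, hx⟩ := avg_close F ra rb h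
      (fun a => ((a : Finset (Fin (2 * n))).card : ℝ) < (2 - √2) * n - η * n) (ε / 32) hκ
      (le_trans hs (le_of_eq (by congr! 6))) t θ hθ hθ8 ht1 hbig
    exact (no_side n F η θ hθη t x hx).2 hQ

end Helper650_UB
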