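import Mathlib
set_option autoImplicit false
set_option maxHeartbeats 4000000

/-! A symmetric relation on `V` with few triangles meeting the complement of `G` has at most
`|G|^2 + |V \ G|^2 + o(|V|^2)` ordered pairs. -/

namespace Helper650_UB

open Finset

open Classical in
/-- Neighbourhood. -/
noncomputable def nb {V : Type} [Fintype V] (E : V → V → Prop) (a : V) : Finset V :=
  Finset.univ.filter (fun b => E a b)

theorem mem_nb {V : Type} [Fintype V] (E : V → V → Prop) (a b : V) : b ∈ nb E a ↔ E a b := by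
  unfold nb
  simp

section
variable {V : Type} [Fintype V] [DecidableEq V]

/-- Few edges inside a neighbourhood of a vertex outside `G`. -/
theorem inner_edges (E : V → V → Prop) (G : Finset V) (τ : ℝ) (hτ : 0 ≤ τ)
    (H : ∀ a, a ∉ G → ∀ b, E a b → (((nb E a) ∩ (nb E b)).card : ℝ) ≤ τ * Fintype.card V)
    (u : V) (hu : u ∉ G) (P : Finset V) (hP : P = nb E u ∩ G) :
    ((((P ×ˢ P) ∩ (G.sigma (fun b => nb E b ∩ G)).map
      (Equiv.sigmaEquivProd V V).toEmbedding).card : ℕ) : ℝ) ≤ τ * (Fintype.card V : ℝ) ^ 2 := by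
  have h1 : ((P ×ˢ P) ∩ (G.sigma (fun b => nb E b ∩ G)).map
      (Equiv.sigmaEquivProd V V).toEmbedding).card ≤ ∑ b ∈ P, ((nb E u) ∩ (nb E b)).card := by
    rw [← Finset.card_sigma]
    apply Finset.card_le_card_of_injOn (fun p : V × V => (⟨p.1, p.2⟩ : (_ : V) × V))
    · intro p hp
      simp only [Finset.coe_inter, Set.mem_inter_iff, Finset.mem_coe, Finset.mem_product,
        Finset.mem_map, Finset.mem_sigma] at hp
      obtain ⟨⟨hp1, hp2⟩, q, ⟨_, hq2⟩, hq⟩ := hp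
      have hq' : q.1 = p.1 ∧ q.2 = p.2 := by
        rw [← hq]
        exact ⟨rfl, rfl⟩
      rw [Finset.mem_inter] at hq2
      simp only [Finset.coe_sigma, Set.mem_sigma_iff, Finset.mem_coe]
      refine ⟨hp1, ?_⟩
      rw [Finset.mem_inter]
      refine ⟨?_, ?_⟩
      · rw [hP, Finset.mem_inter] at hp2
        exact hp2.1
      · rw [← hq'.1, ← hq'.2]
        exact hq2.1
    · intro p _ q _ hpq
      simp only [Sigma.mk.injEq, heq_eq_eq] at hpq
      exact Prod.ext hpq.1 hpq.2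
  have h2 : ((∑ b ∈ P, ((nb E u) ∩ (nb E b)).card : ℕ) : ℝ) ≤ ∑ b ∈ P, τ * Fintype.card V := by
    push_cast
    apply Finset.sum_le_sum
    intro b hb
    apply H u hu b
    rw [hP, Finset.mem_inter, mem_nb] at hb
    exact hb.1
  rw [Finset.sum_const, nsmul_eq_mul] at h2
  have h3 : (P.card : ℝ) ≤ Fintype.card V := by exact_mod_cast Finset.card_le_univ P
  have h4 : (0 : ℝ) ≤ τ * Fintype.card V := by positivity
  calc _ ≤ ((∑ b ∈ P, ((nb E u) ∩ (nb E b)).card : ℕ) : ℝ) := by exact_mod_cast h1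
    _ ≤ P.card * (τ * Fintype.card V) := h2
    _ ≤ Fintype.card V * (τ * Fintype.card V) := mul_le_mul_of_nonneg_right h3 h4
    _ = _ := by ring

/-- The non-edges inside `G`. -/
theorem fact_one (E : V → V → Prop) (G : Finset V) (τ : ℝ) (hτ : 0 ≤ τ) (hτ1 : τ ≤ 1)
    (H : ∀ a, a ∉ G → ∀ b, E a b → (((nb E a) ∩ (nb E b)).card : ℝ) ≤ τ * Fintype.card V)
    (u v : V) (hu : u ∉ G) (hv : v ∉ G) (huv : E u v) :
    ((nb E u ∩ G).card : ℝ) ^ 2 + ((nb E v ∩ G).card : ℝ) ^ 2 ≤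
      ((G.card : ℝ) ^ 2 - ∑ a ∈ G, ((nb E a ∩ G).card : ℝ)) + 3 * τ * (Fintype.card V : ℝ) ^ 2 := by
  set P := nb E u ∩ G with hP
  set P' := nb E v ∩ G with hP'
  set Ed := (G.sigma (fun b => nb E b ∩ G)).map (Equiv.sigmaEquivProd V V).toEmbedding with hEd
  have hEdc : Ed.card = ∑ a ∈ G, (nb E a ∩ G).card := by
    rw [hEd, Finset.card_map, Finset.card_sigma]
  have hEds : Ed ⊆ G ×ˢ G := by
    intro p hp
    rw [hEd, Finset.mem_map] at hp
    obtain ⟨q, hq, hqp⟩ := hp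
    rw [Finset.mem_sigma] at hq
    have hq' : q.1 = p.1 ∧ q.2 = p.2 := by
      rw [← hqp]
      exact ⟨rfl, rfl⟩
    rw [Finset.mem_product, ← hq'.1, ← hq'.2]
    exact ⟨hq.1, (Finset.mem_inter.mp hq.2).2⟩
  have e1 := inner_edges E G τ hτ H u hu P hP
  have e2 := inner_edges E G τ hτ H v hv P' hP'
  rw [← hEd] at e1 e2
  have hX : ((P ×ˢ P) ∪ (P' ×ˢ P')).card ≤ (G ×ˢ G \ Ed).card + ((P ×ˢ P) ∩ Ed).card + ((P' ×ˢ P') ∩ Ed).card := by
    have hsub : (P ×ˢ P) ∪ (P' ×ˢ P') ⊆ ((G ×ˢ G \ Ed) ∪ ((P ×ˢ P) ∩ Ed)) ∪ ((P' ×ˢ P') ∩ Ed) := by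
      intro p hp
      have hPG : P ⊆ G := Finset.inter_subset_right
      have hPG' : P' ⊆ G := Finset.inter_subset_right
      by_cases hpe : p ∈ Ed
      · rcases Finset.mem_union.mp hp with h | h
        · exact Finset.mem_union_left _ (Finset.mem_union_right _ (Finset.mem_inter.mpr ⟨h, hpe⟩))
        · exact Finset.mem_union_right _ (Finset.mem_inter.mpr ⟨h, hpe⟩)
      · apply Finset.mem_union_left
        apply Finset.mem_union_left
        rw [Finset.mem_sdiff]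
        refine ⟨?_, hpe⟩
        rcases Finset.mem_union.mp hp with h | h
        · rw [Finset.mem_product] at h ⊢
          exact ⟨hPG h.1, hPG h.2⟩
        · rw [Finset.mem_product] at h ⊢
          exact ⟨hPG' h.1, hPG' h.2⟩
    calc _ ≤ _ := Finset.card_le_card hsub
      _ ≤ _ := Finset.card_union_le _ _
      _ ≤ _ := Nat.add_le_add_right (Finset.card_union_le _ _) _
  have hU := Finset.card_union_add_card_inter (P ×ˢ P) (P' ×ˢ P')
  rw [Finset.product_inter_product, Finset.card_product, Finset.card_product, Finset.card_product] at hU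
  have hI : ((P ∩ P').card : ℝ) ≤ τ * Fintype.card V := by
    have h1 : (P ∩ P').card ≤ ((nb E u) ∩ (nb E v)).card := by
      apply Finset.card_le_card
      intro x hx
      rw [Finset.mem_inter] at hx ⊢
      exact ⟨(Finset.mem_inter.mp hx.1).1, (Finset.mem_inter.mp hx.2).1⟩
    calc ((P ∩ P').card : ℝ) ≤ (((nb E u) ∩ (nb E v)).card : ℝ) := by exact_mod_cast h1
      _ ≤ _ := H u hu v huv
  have hG : (G ×ˢ G \ Ed).card + Ed.card = G.card * G.card := by
    rw [Finset.card_sdiff_add_card_eq_card hEds, Finset.card_product]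
  have hG' : (((G ×ˢ G \ Ed).card : ℕ) : ℝ) + ∑ a ∈ G, ((nb E a ∩ G).card : ℝ) = (G.card : ℝ) ^ 2 := by
    have : (((G ×ˢ G \ Ed).card + Ed.card : ℕ) : ℝ) = ((G.card * G.card : ℕ) : ℝ) := by rw [hG]
    rw [hEdc] at this
    push_cast at this
    rw [this]
    ring
  have hU' : (((P ×ˢ P) ∪ (P' ×ˢ P')).card : ℝ) + ((P ∩ P').card : ℝ) ^ 2 = (P.card : ℝ) ^ 2 + (P'.card : ℝ) ^ 2 := by
    have : ((((P ×ˢ P) ∪ (P' ×ˢ P')).card + (P ∩ P').card * (P ∩ P').card : ℕ) : ℝ) =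
      ((P.card * P.card + P'.card * P'.card : ℕ) : ℝ) := by rw [hU]
    push_cast at this
    nlinarith [this]
  have hX' : (((P ×ˢ P) ∪ (P' ×ˢ P')).card : ℝ) ≤ ((G ×ˢ G \ Ed).card : ℝ) + (((P ×ˢ P) ∩ Ed).card : ℝ) +
      (((P' ×ˢ P') ∩ Ed).card : ℝ) := by exact_mod_cast hX
  have hI0 : (0 : ℝ) ≤ ((P ∩ P').card : ℝ) := Nat.cast_nonneg _
  have hV : (0 : ℝ) ≤ (Fintype.card V : ℝ) := Nat.cast_nonneg _
  have hI2 : ((P ∩ P').card : ℝ) ^ 2 ≤ τ * (Fintype.card V : ℝ) ^ 2 := by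
    calc ((P ∩ P').card : ℝ) ^ 2 ≤ (τ * Fintype.card V) ^ 2 := pow_le_pow_left₀ hI0 hI 2
      _ = τ * (τ * (Fintype.card V : ℝ) ^ 2) := by ring
      _ ≤ 1 * (τ * (Fintype.card V : ℝ) ^ 2) := mul_le_mul_of_nonneg_right hτ1 (by positivity)
      _ = _ := one_mul _
  linarith

theorem fact_zero (E : V → V → Prop) (G : Finset V) (τ : ℝ) (hτ : 0 ≤ τ)
    (H : ∀ a, a ∉ G → ∀ b, E a b → (((nb E a) ∩ (nb E b)).card : ℝ) ≤ τ * Fintype.card V)
    (u : V) (hu : u ∉ G) :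
    ((nb E u ∩ G).card : ℝ) ^ 2 ≤
      ((G.card : ℝ) ^ 2 - ∑ a ∈ G, ((nb E a ∩ G).card : ℝ)) + 3 * τ * (Fintype.card V : ℝ) ^ 2 := by
  set P := nb E u ∩ G with hP
  set Ed := (G.sigma (fun b => nb E b ∩ G)).map (Equiv.sigmaEquivProd V V).toEmbedding with hEd
  have hEdc : Ed.card = ∑ a ∈ G, (nb E a ∩ G).card := by
    rw [hEd, Finset.card_map, Finset.card_sigma]
  have hEds : Ed ⊆ G ×ˢ G := by
    intro p hp
    rw [hEd, Finset.mem_map] at hp
    obtain ⟨q, hq, hqp⟩ := hp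
    rw [Finset.mem_sigma] at hq
    have hq' : q.1 = p.1 ∧ q.2 = p.2 := by
      rw [← hqp]
      exact ⟨rfl, rfl⟩
    rw [Finset.mem_product, ← hq'.1, ← hq'.2]
    exact ⟨hq.1, (Finset.mem_inter.mp hq.2).2⟩
  have e1 := inner_edges E G τ hτ H u hu P hP
  rw [← hEd] at e1
  have hX : (P ×ˢ P).card ≤ (G ×ˢ G \ Ed).card + ((P ×ˢ P) ∩ Ed).card := by
    have hsub : (P ×ˢ P) ⊆ (G ×ˢ G \ Ed) ∪ ((P ×ˢ P) ∩ Ed) := by
      intro p hp
      have hPG : P ⊆ G := Finset.inter_subset_right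
      by_cases hpe : p ∈ Ed
      · exact Finset.mem_union_right _ (Finset.mem_inter.mpr ⟨hp, hpe⟩)
      · apply Finset.mem_union_left
        rw [Finset.mem_sdiff]
        refine ⟨?_, hpe⟩
        rw [Finset.mem_product] at hp ⊢
        exact ⟨hPG hp.1, hPG hp.2⟩
    exact (Finset.card_le_card hsub).trans (Finset.card_union_le _ _)
  have hG : (G ×ˢ G \ Ed).card + Ed.card = G.card * G.card := by
    rw [Finset.card_sdiff_add_card_eq_card hEds, Finset.card_product]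
  have hG' : (((G ×ˢ G \ Ed).card : ℕ) : ℝ) + ∑ a ∈ G, ((nb E a ∩ G).card : ℝ) = (G.card : ℝ) ^ 2 := by
    have : (((G ×ˢ G \ Ed).card + Ed.card : ℕ) : ℝ) = ((G.card * G.card : ℕ) : ℝ) := by rw [hG]
    rw [hEdc] at this
    push_cast at this
    rw [this]
    ring
  have hX' : ((P ×ˢ P).card : ℝ) ≤ ((G ×ˢ G \ Ed).card : ℝ) + (((P ×ˢ P) ∩ Ed).card : ℝ) := by exact_mod_cast hX
  have hXc : ((P ×ˢ P).card : ℝ) = (P.card : ℝ) ^ 2 := by
    rw [Finset.card_product]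
    push_cast
    ring
  have h0 : (0 : ℝ) ≤ τ * (Fintype.card V : ℝ) ^ 2 := by positivity
  linarith

end

end Helper650_UB
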