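import Mathlib
import Pool.Agent.Helper650_UB.Graph
set_option autoImplicit false
set_option maxHeartbeats 4000000

namespace Helper650_UB

open Finset

section
variable {V : Type} [Fintype V] [DecidableEq V]

open Classical in
theorem nb_inter_card (E : V → V → Prop) (a : V) (S : Finset V) :
    ((nb E a ∩ S).card : ℝ) = ∑ b ∈ S, (if E a b then (1 : ℝ) else 0) := by
  rw [Finset.sum_boole]
  congr 2
  ext b
  rw [Finset.mem_inter, mem_nb, Finset.mem_filter]
  exact and_comm

theorem graph_main (E : V → V → Prop) (hs : ∀ a b, E a b → E b a) (G : Finset V) (τ : ℝ) (hτ : 0 ≤ τ) (hτ1 : τ ≤ 1)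
    (H : ∀ a, a ∉ G → ∀ b, E a b → (((nb E a) ∩ (nb E b)).card : ℝ) ≤ τ * Fintype.card V) :
    ∑ a, ((nb E a).card : ℝ) ≤
      (G.card : ℝ) ^ 2 + ((Gᶜ).card : ℝ) ^ 2 + 4 * τ * (Fintype.card V : ℝ) ^ 2 := by
  classical
  have hV : (0 : ℝ) ≤ (Fintype.card V : ℝ) := Nat.cast_nonneg _
  have hsplit : ∀ a, ((nb E a).card : ℝ) = ((nb E a ∩ G).card : ℝ) + ((nb E a ∩ Gᶜ).card : ℝ) := by
    intro a
    have := Finset.card_inter_add_card_sdiff (nb E a) G
    rw [Finset.sdiff_eq_inter_compl] at this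
    rw [← this]
    push_cast
    rfl
  have hdc : ∑ a ∈ G, ((nb E a ∩ Gᶜ).card : ℝ) = ∑ a ∈ Gᶜ, ((nb E a ∩ G).card : ℝ) := by
    simp_rw [nb_inter_card]
    rw [Finset.sum_comm]
    apply Finset.sum_congr rfl
    intro b _
    apply Finset.sum_congr rfl
    intro a _
    by_cases h : E a b
    · rw [if_pos h, if_pos (hs a b h)]
    · rw [if_neg h, if_neg (fun h' => h (hs b a h'))]
  have htot : ∑ a, ((nb E a).card : ℝ) = ∑ a ∈ G, ((nb E a ∩ G).card : ℝ) +
      ∑ a ∈ Gᶜ, (2 * ((nb E a ∩ G).card : ℝ) + ((nb E a ∩ Gᶜ).card : ℝ)) := by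
    rw [← Finset.sum_add_sum_compl G]
    have h1 : ∑ a ∈ G, ((nb E a).card : ℝ) = ∑ a ∈ G, ((nb E a ∩ G).card : ℝ) + ∑ a ∈ G, ((nb E a ∩ Gᶜ).card : ℝ) := by
      rw [← Finset.sum_add_distrib]
      exact Finset.sum_congr rfl (fun a _ => hsplit a)
    have h2 : ∑ a ∈ Gᶜ, ((nb E a).card : ℝ) = ∑ a ∈ Gᶜ, ((nb E a ∩ G).card : ℝ) + ∑ a ∈ Gᶜ, ((nb E a ∩ Gᶜ).card : ℝ) := by
      rw [← Finset.sum_add_distrib]
      exact Finset.sum_congr rfl (fun a _ => hsplit a)
    rw [h1, h2, hdc, Finset.sum_add_distrib, ← Finset.mul_sum]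
    ring
  rw [htot]
  set W : ℝ := (G.card : ℝ) ^ 2 - ∑ a ∈ G, ((nb E a ∩ G).card : ℝ) with hW
  set R := Gᶜ with hR
  have hWnn : 0 ≤ W := by
    have h1 : ∑ a ∈ G, ((nb E a ∩ G).card : ℝ) ≤ ∑ _a ∈ G, (G.card : ℝ) := by
      apply Finset.sum_le_sum
      intro a _
      exact_mod_cast Finset.card_le_card Finset.inter_subset_right
    rw [Finset.sum_const, nsmul_eq_mul] at h1
    rw [hW]
    nlinarith
  rcases R.eq_empty_or_nonempty with hRe | hRne
  · rw [hRe]
    simp only [Finset.sum_empty, Finset.card_empty]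
    have h0 : (0 : ℝ) ≤ 4 * τ * (Fintype.card V : ℝ) ^ 2 := by positivity
    push_cast
    linarith
  · obtain ⟨u, hu, hmax⟩ := Finset.exists_max_image R
      (fun a => (2 * ((nb E a ∩ G).card : ℝ) + ((nb E a ∩ R).card : ℝ))) hRne
    have huG : u ∉ G := by
      rw [hR, Finset.mem_compl] at hu
      exact hu
    set N := nb E u ∩ R with hN
    have hNR : N ⊆ R := Finset.inter_subset_right
    set g : ℝ := ((nb E u ∩ G).card : ℝ) with hg
    set r : ℝ := (N.card : ℝ) with hr
    set ρ : ℝ := (R.card : ℝ) with hρ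
    have hr0 : 0 ≤ r := Nat.cast_nonneg _
    have hg0 : 0 ≤ g := Nat.cast_nonneg _
    have hrρ : r ≤ ρ := by
      rw [hr, hρ]
      exact_mod_cast Finset.card_le_card hNR
    have hrV : r ≤ Fintype.card V := by
      rw [hr]
      exact_mod_cast Finset.card_le_univ _
    have hsd : ((R \ N).card : ℝ) = ρ - r := by
      have := Finset.card_sdiff_add_card_eq_card hNR
      have h2 : (((R \ N).card + N.card : ℕ) : ℝ) = (R.card : ℝ) := by rw [this]
      push_cast at h2
      rw [hr, hρ]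
      linarith
    have hsumR : ∑ a ∈ R, (2 * ((nb E a ∩ G).card : ℝ) + ((nb E a ∩ R).card : ℝ)) =
        ∑ a ∈ R \ N, (2 * ((nb E a ∩ G).card : ℝ) + ((nb E a ∩ R).card : ℝ)) +
        ∑ a ∈ N, (2 * ((nb E a ∩ G).card : ℝ) + ((nb E a ∩ R).card : ℝ)) := (Finset.sum_sdiff hNR).symm
    have h1 : ∑ a ∈ R \ N, (2 * ((nb E a ∩ G).card : ℝ) + ((nb E a ∩ R).card : ℝ)) ≤ (ρ - r) * (2 * g + r) := by
      calc _ ≤ ∑ _a ∈ R \ N, (2 * g + r) := by
            apply Finset.sum_le_sum
            intro a ha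
            exact hmax a (Finset.mem_sdiff.mp ha).1
        _ = _ := by rw [Finset.sum_const, nsmul_eq_mul, hsd]
    have h2 : ∑ a ∈ N, ((nb E a ∩ R).card : ℝ) ≤ r * (ρ - r + τ * Fintype.card V) := by
      calc _ ≤ ∑ _a ∈ N, (ρ - r + τ * Fintype.card V) := by
            apply Finset.sum_le_sum
            intro a ha
            have hua : E u a := by
              rw [hN, Finset.mem_inter, mem_nb] at ha
              exact ha.1
            have hsub : nb E a ∩ R ⊆ (R \ N) ∪ (nb E u ∩ nb E a) := by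
              intro x hx
              rw [Finset.mem_inter] at hx
              by_cases hxu : x ∈ nb E u
              · exact Finset.mem_union_right _ (Finset.mem_inter.mpr ⟨hxu, hx.1⟩)
              · apply Finset.mem_union_left
                rw [Finset.mem_sdiff, hN, Finset.mem_inter]
                exact ⟨hx.2, fun h => hxu h.1⟩
            have h3 := (Finset.card_le_card hsub).trans (Finset.card_union_le _ _)
            have h4 : ((nb E a ∩ R).card : ℝ) ≤ ((R \ N).card : ℝ) + ((nb E u ∩ nb E a).card : ℝ) := by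
              exact_mod_cast h3
            rw [hsd] at h4
            have h5 := H u huG a hua
            linarith
        _ = _ := by rw [Finset.sum_const, nsmul_eq_mul]
    have h3 : ∑ a ∈ N, 2 * ((nb E a ∩ G).card : ℝ) ≤ W + 3 * τ * (Fintype.card V : ℝ) ^ 2 - g ^ 2 + r ^ 2 := by
      have f0 := fact_zero E G τ hτ H u huG
      rw [← hW, ← hg] at f0
      rcases N.eq_empty_or_nonempty with hNe | hNne
      · have hr' : r = 0 := by rw [hr, hNe]; simp
        rw [hNe, Finset.sum_empty, hr']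
        linarith
      · have hrpos : 0 < r := by
          rw [hr]
          exact_mod_cast Finset.card_pos.mpr hNne
        have h4 : r * ∑ a ∈ N, 2 * ((nb E a ∩ G).card : ℝ) ≤
            r * (W + 3 * τ * (Fintype.card V : ℝ) ^ 2 - g ^ 2 + r ^ 2) := by
          rw [Finset.mul_sum]
          calc _ ≤ ∑ _a ∈ N, (W + 3 * τ * (Fintype.card V : ℝ) ^ 2 - g ^ 2 + r ^ 2) := by
                apply Finset.sum_le_sum
                intro a ha
                have hua : E u a := by
                  rw [hN, Finset.mem_inter, mem_nb] at ha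
                  exact ha.1
                have haG : a ∉ G := by
                  have := hNR ha
                  rw [hR, Finset.mem_compl] at this
                  exact this
                have f1 := fact_one E G τ hτ hτ1 H u a huG haG hua
                rw [← hW, ← hg] at f1
                nlinarith [sq_nonneg (((nb E a ∩ G).card : ℝ) - r)]
            _ = _ := by rw [Finset.sum_const, nsmul_eq_mul]
        exact le_of_mul_le_mul_left h4 hrpos
    have h5 : ∑ a ∈ N, (2 * ((nb E a ∩ G).card : ℝ) + ((nb E a ∩ R).card : ℝ)) =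
        ∑ a ∈ N, 2 * ((nb E a ∩ G).card : ℝ) + ∑ a ∈ N, ((nb E a ∩ R).card : ℝ) := Finset.sum_add_distrib
    rw [hsumR, h5]
    have h6 : r * (τ * Fintype.card V) ≤ τ * (Fintype.card V : ℝ) ^ 2 := by
      calc _ ≤ (Fintype.card V : ℝ) * (τ * Fintype.card V) := mul_le_mul_of_nonneg_right hrV (by positivity)
        _ = _ := by ring
    have h7 : 0 ≤ (g - (ρ - r)) ^ 2 := sq_nonneg _
    have h8 : ∑ a ∈ G, ((nb E a ∩ G).card : ℝ) = (G.card : ℝ) ^ 2 - W := by rw [hW]; ring
    rw [h8]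
    nlinarith

open Classical in
theorem graph_few (E : V → V → Prop) (hs : ∀ a b, E a b → E b a) (G : Finset V) (τ : ℝ) (hτ : 0 < τ) (hτ1 : τ ≤ 1)
    (hT : ∑ a, ∑ b, ∑ c, (if a ∉ G ∧ (E a b ∧ E b c ∧ E a c) then (1 : ℝ) else 0) ≤
      τ ^ 2 * (Fintype.card V : ℝ) ^ 3) :
    ∑ a, ∑ b, (if E a b then (1 : ℝ) else 0) ≤
      (G.card : ℝ) ^ 2 + ((Gᶜ).card : ℝ) ^ 2 + 6 * τ * (Fintype.card V : ℝ) ^ 2 := by
  have hV : (0 : ℝ) ≤ (Fintype.card V : ℝ) := Nat.cast_nonneg _
  rcases hV.eq_or_lt with hV0 | hVpos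
  · -- empty
    have : IsEmpty V := by
      rw [← Fintype.card_eq_zero_iff]
      exact_mod_cast hV0.symm
    simp
    positivity
  set B : V → V → Prop := fun a b => a ∉ G ∧ τ * Fintype.card V < ((nb E a ∩ nb E b).card : ℝ) with hB
  set E' : V → V → Prop := fun a b => E a b ∧ ¬ B a b ∧ ¬ B b a with hE'
  have hs' : ∀ a b, E' a b → E' b a := fun a b h => ⟨hs a b h.1, h.2.2, h.2.1⟩
  have hnb : ∀ a, nb E' a ⊆ nb E a := by
    intro a x hx
    rw [mem_nb] at hx ⊢
    exact hx.1
  have H : ∀ a, a ∉ G → ∀ b, E' a b → (((nb E' a) ∩ (nb E' b)).card : ℝ) ≤ τ * Fintype.card V := by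
    intro a ha b hab
    have h1 : ((nb E' a) ∩ (nb E' b)).card ≤ ((nb E a) ∩ (nb E b)).card :=
      Finset.card_le_card (Finset.inter_subset_inter (hnb a) (hnb b))
    have h2 : ((nb E a ∩ nb E b).card : ℝ) ≤ τ * Fintype.card V := by
      by_contra hc
      exact hab.2.1 ⟨ha, not_le.mp hc⟩
    calc _ ≤ (((nb E a) ∩ (nb E b)).card : ℝ) := by exact_mod_cast h1
      _ ≤ _ := h2
  have hmain := graph_main E' hs' G τ hτ.le hτ1 H
  have hnbsum : ∀ a, ((nb E' a).card : ℝ) = ∑ b, (if E' a b then (1 : ℝ) else 0) := by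
    intro a
    have h0 := nb_inter_card E' a Finset.univ
    rw [Finset.inter_univ] at h0
    rw [h0]
    apply Finset.sum_congr rfl
    intro b _
    by_cases h : E' a b
    · rw [if_pos h, if_pos h]
    · rw [if_neg h, if_neg h]
  simp_rw [hnbsum] at hmain
  -- removed pairs
  set S : ℝ := ∑ a, ∑ b, (if E a b ∧ B a b then (1 : ℝ) else 0) with hS
  have hSb : τ * Fintype.card V * S ≤ τ ^ 2 * (Fintype.card V : ℝ) ^ 3 := by
    refine le_trans ?_ hT
    rw [hS, Finset.mul_sum]
    apply Finset.sum_le_sum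
    intro a _
    rw [Finset.mul_sum]
    apply Finset.sum_le_sum
    intro b _
    by_cases h : E a b ∧ B a b
    · rw [if_pos h, mul_one]
      have h1 : ((nb E a ∩ nb E b).card : ℝ) = ∑ c, (if a ∉ G ∧ (E a b ∧ E b c ∧ E a c) then (1 : ℝ) else 0) := by
        rw [Finset.sum_boole]
        congr 2
        ext c
        rw [Finset.mem_inter, mem_nb, mem_nb, Finset.mem_filter]
        constructor
        · intro hc
          exact ⟨Finset.mem_univ _, h.2.1, h.1, hc.2, hc.1⟩
        · intro hc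
          exact ⟨hc.2.2.2.2, hc.2.2.2.1⟩
      rw [← h1]
      exact h.2.2.le
    · rw [if_neg h, mul_zero]
      apply Finset.sum_nonneg
      intro c _
      split_ifs <;> norm_num
  have hSb2 : S ≤ τ * (Fintype.card V : ℝ) ^ 2 := by
    have hpos : 0 < τ * (Fintype.card V : ℝ) := by positivity
    apply le_of_mul_le_mul_left _ hpos
    calc _ ≤ _ := hSb
      _ = _ := by ring
  have hSswap : ∑ a, ∑ b, (if E a b ∧ B b a then (1 : ℝ) else 0) = S := by
    rw [hS, Finset.sum_comm]
    apply Finset.sum_congr rfl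
    intro a _
    apply Finset.sum_congr rfl
    intro b _
    by_cases h : E a b ∧ B a b
    · rw [if_pos h, if_pos ⟨hs a b h.1, h.2⟩]
    · rw [if_neg h, if_neg (fun h' => h ⟨hs b a h'.1, h'.2⟩)]
  have hle : ∑ a, ∑ b, (if E a b then (1 : ℝ) else 0) ≤
      ∑ a, ∑ b, (if E' a b then (1 : ℝ) else 0) + ∑ a, ∑ b, (if E a b ∧ B a b then (1 : ℝ) else 0) +
        ∑ a, ∑ b, (if E a b ∧ B b a then (1 : ℝ) else 0) := by
    rw [← Finset.sum_add_distrib, ← Finset.sum_add_distrib]
    apply Finset.sum_le_sum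
    intro a _
    rw [← Finset.sum_add_distrib, ← Finset.sum_add_distrib]
    apply Finset.sum_le_sum
    intro b _
    have n1 : (0 : ℝ) ≤ (if E' a b then (1 : ℝ) else 0) := by split_ifs <;> norm_num
    have n2 : (0 : ℝ) ≤ (if E a b ∧ B a b then (1 : ℝ) else 0) := by split_ifs <;> norm_num
    have n3 : (0 : ℝ) ≤ (if E a b ∧ B b a then (1 : ℝ) else 0) := by split_ifs <;> norm_num
    by_cases h : E a b
    · rw [if_pos h]
      by_cases h1 : B a b
      · rw [if_pos (⟨h, h1⟩ : E a b ∧ B a b)]; linarith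
      · by_cases h2 : B b a
        · rw [if_pos (⟨h, h2⟩ : E a b ∧ B b a)]; linarith
        · rw [if_pos (⟨h, h1, h2⟩ : E' a b)]; linarith
    · rw [if_neg h]; linarith
  rw [hSswap, ← hS] at hle
  linarith

end

end Helper650_UB
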