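import Mathlib
import Pool.Agent.Helper650_UB.Main
import Pool.Agent.Helper650_UB.Graph2
set_option autoImplicit false
set_option maxHeartbeats 4000000

namespace Helper650_UB

open Finset

open Classical in
theorem split_two {V : Type} [Fintype V] (T : V → V → V → Prop) (Q P M : V → Prop)
    (hcov : ∀ a, Q a → P a ∨ M a) (κ : ℝ)
    (hT : κ * (Fintype.card V : ℝ) ^ 3 < ∑ a, ∑ b, ∑ c, (if Q a ∧ T a b c then (1 : ℝ) else 0)) :
    κ / 2 * (Fintype.card V : ℝ) ^ 3 ≤ ∑ a, ∑ b, ∑ c, (if P a ∧ T a b c then (1 : ℝ) else 0) ∨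
    κ / 2 * (Fintype.card V : ℝ) ^ 3 ≤ ∑ a, ∑ b, ∑ c, (if M a ∧ T a b c then (1 : ℝ) else 0) := by
  by_contra hcon
  rw [not_or, not_le, not_le] at hcon
  obtain ⟨h1, h2⟩ := hcon
  have hpt : ∀ a b c, (if Q a ∧ T a b c then (1 : ℝ) else 0) ≤
      (if P a ∧ T a b c then (1 : ℝ) else 0) + (if M a ∧ T a b c then (1 : ℝ) else 0) := by
    intro a b c
    have n2 : (0 : ℝ) ≤ (if P a ∧ T a b c then (1 : ℝ) else 0) := by split_ifs <;> norm_num
    have n3 : (0 : ℝ) ≤ (if M a ∧ T a b c then (1 : ℝ) else 0) := by split_ifs <;> norm_num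
    by_cases hT : Q a ∧ T a b c
    · rw [if_pos hT]
      rcases hcov a hT.1 with hp | hm
      · rw [if_pos (⟨hp, hT.2⟩ : P a ∧ T a b c)]; linarith
      · rw [if_pos (⟨hm, hT.2⟩ : M a ∧ T a b c)]; linarith
    · rw [if_neg hT]; linarith
  have hsum : ∑ a, ∑ b, ∑ c, (if Q a ∧ T a b c then (1 : ℝ) else 0) ≤
      (∑ a, ∑ b, ∑ c, (if P a ∧ T a b c then (1 : ℝ) else 0)) +
      (∑ a, ∑ b, ∑ c, (if M a ∧ T a b c then (1 : ℝ) else 0)) := by
    rw [← Finset.sum_add_distrib]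
    apply Finset.sum_le_sum
    intro a _
    rw [← Finset.sum_add_distrib]
    apply Finset.sum_le_sum
    intro b _
    rw [← Finset.sum_add_distrib]
    apply Finset.sum_le_sum
    intro c _
    exact hpt a b c
  linarith

open Classical in
theorem few_outside (κ η : ℝ) (hκ : 0 < κ) (hη : 0 < η) :
    ∃ n₀ : ℕ, ∀ n : ℕ, n₀ ≤ n → ∀ F : Finset (Finset (Fin (2 * n))),
      ∀ ra rb : Finset (Fin (2 * n)) → {A : Finset (Fin (2 * n)) // A ∈ F},
      (∀ S, (ra S : Finset (Fin (2 * n))) ∪ rb S = S) →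
      ∑ a : {A : Finset (Fin (2 * n)) // A ∈ F}, ∑ b : {A : Finset (Fin (2 * n)) // A ∈ F},
        ∑ c : {A : Finset (Fin (2 * n)) // A ∈ F},
        (if (¬ |((a : Finset (Fin (2 * n))).card : ℝ) - (2 - √2) * n| ≤ η * n) ∧
          (Rel ra rb a b ∧ Rel ra rb b c ∧ Rel ra rb a c) then (1 : ℝ) else 0) ≤ κ * (F.card : ℝ) ^ 3 := by
  obtain ⟨θ, hθ, hθ8, hθη⟩ : ∃ θ : ℝ, 0 < θ ∧ θ ≤ 1 / 8 ∧ 30 * θ ≤ η := by
    refine ⟨min (η / 30) (1 / 8), lt_min (by positivity) (by norm_num), min_le_right _ _, ?_⟩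
    have := min_le_left (η / 30) (1 / 8 : ℝ)
    linarith
  obtain ⟨t, ht⟩ := exists_nat_ge (1 / θ ^ 3)
  have hθ3 : 0 < θ ^ 3 := by positivity
  have ht1 : 1 ≤ θ ^ 3 * t := by
    rw [div_le_iff₀ hθ3] at ht
    linarith
  have ht0 : t ≠ 0 := by
    rintro rfl
    norm_num at ht1
  have : NeZero t := ⟨ht0⟩
  have hκ2 : 0 < κ / 2 := by positivity
  have hc : 0 < (((κ / 2) ^ t) ^ t) ^ t := by positivity
  obtain ⟨n1, hn1⟩ := pow_unbounded_of_one_lt (6 * t * 2 ^ t / (((κ / 2) ^ t) ^ t) ^ t) (one_lt_two : (1 : ℝ) < 2)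
  refine ⟨n1, ?_⟩
  intro n hn F ra rb h
  by_contra hlt
  rw [not_le] at hlt
  have hN : Fintype.card (Fin (2 * n)) = 2 * n := Fintype.card_fin _
  have hbig : 6 * t * 2 ^ t < (((κ / 2) ^ t) ^ t) ^ t * (2 : ℝ) ^ (Fintype.card (Fin (2 * n))) := by
    rw [hN]
    have h1 : 6 * t * 2 ^ t / (((κ / 2) ^ t) ^ t) ^ t < (2 : ℝ) ^ (2 * n) := by
      calc _ < (2 : ℝ) ^ n1 := hn1
        _ ≤ 2 ^ (2 * n) := pow_le_pow_right₀ (by norm_num) (by omega)
    rw [div_lt_iff₀ hc] at h1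
    linarith
  have hsplit := split_two (V := {A : Finset (Fin (2 * n)) // A ∈ F})
    (fun a b c => Rel ra rb a b ∧ Rel ra rb b c ∧ Rel ra rb a c)
    (fun a => ¬ |((a : Finset (Fin (2 * n))).card : ℝ) - (2 - √2) * n| ≤ η * n)
    (fun a => (2 - √2) * n + η * n < ((a : Finset (Fin (2 * n))).card : ℝ))
    (fun a => ((a : Finset (Fin (2 * n))).card : ℝ) < (2 - √2) * n - η * n)
    (by
      intro a h1
      rw [abs_le, not_and_or, not_le, not_le] at h1
      rcases h1 with h1 | h1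
      · right; linarith
      · left; linarith)
    κ
    (by
      rw [Fintype.card_coe]
      refine lt_of_lt_of_le hlt (le_of_eq ?_)
      congr! 6)
  rw [Fintype.card_coe] at hsplit
  rcases hsplit with hs | hs
  · obtain ⟨x, hQ, hx⟩ := avg_close F ra rb h
      (fun a => (2 - √2) * n + η * n < ((a : Finset (Fin (2 * n))).card : ℝ)) (κ / 2) hκ2
      (le_trans hs (le_of_eq (by congr! 6))) t θ hθ hθ8 ht1 hbig
    exact (no_side n F η θ hθη t x hx).1 hQ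
  · obtain ⟨x, hQ, hx⟩ := avg_close F ra rb h
      (fun a => ((a : Finset (Fin (2 * n))).card : ℝ) < (2 - √2) * n - η * n) (κ / 2) hκ2
      (le_trans hs (le_of_eq (by congr! 6))) t θ hθ hθ8 ht1 hbig
    exact (no_side n F η θ hθη t x hx).2 hQ

open Classical in
theorem sharp_aux (ε η : ℝ) (hε : 0 < ε) (hε1 : ε ≤ 1) (hη : 0 < η) :
    ∃ n₀ : ℕ, ∀ n : ℕ, n₀ ≤ n → ∀ F : Finset (Finset (Fin (2 * n))),
      (∀ S : Finset (Fin (2 * n)), ∃ A ∈ F, ∃ B ∈ F, A ∪ B = S) →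
      (F.card : ℝ) ≤ (2 - ε) * 2 ^ n →
      ((F.card : ℝ) + √((2 * 2 ^ n) ^ 2 - (F.card : ℝ) ^ 2)) / 2 - ε * 2 ^ n ≤
        ((F.filter (fun A => |(A.card : ℝ) - (2 - √2) * n| ≤ η * n)).card : ℝ) := by
  obtain ⟨τ, hτdef⟩ : ∃ τ : ℝ, τ = ε ^ 2 / 32 := ⟨_, rfl⟩
  have hτ : 0 < τ := by rw [hτdef]; positivity
  have hεε : ε ^ 2 ≤ ε := by nlinarith
  have hτ1 : τ ≤ 1 := by rw [hτdef]; linarith
  obtain ⟨n1, hn1⟩ := few_outside (τ ^ 2) η (by positivity) hη
  obtain ⟨n2, hn2⟩ := pow_unbounded_of_one_lt (8 / ε ^ 2) (one_lt_two : (1 : ℝ) < 2)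
  refine ⟨max n1 n2, ?_⟩
  intro n hn F hF hcard
  choose A hA B hB hAB using hF
  have hex : ∃ ra rb : Finset (Fin (2 * n)) → {A : Finset (Fin (2 * n)) // A ∈ F},
      ∀ S, (ra S : Finset (Fin (2 * n))) ∪ rb S = S :=
    ⟨fun S => ⟨A S, hA S⟩, fun S => ⟨B S, hB S⟩, hAB⟩
  obtain ⟨ra, rb, h⟩ := hex
  have hfew := hn1 n (le_trans (le_max_left _ _) hn) F ra rb h
  have hN : Fintype.card (Fin (2 * n)) = 2 * n := Fintype.card_fin _
  have hsq : (2 : ℝ) ^ (2 * n) = (2 ^ n) ^ 2 := by rw [mul_comm, pow_mul]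
  have hE := edge_count F ra rb h
  have hm2 := two_pow_le_sq F ra rb h
  rw [hN, hsq] at hE hm2
  have hMge : 8 / ε ^ 2 < (2 : ℝ) ^ n := by
    calc 8 / ε ^ 2 < 2 ^ n2 := hn2
      _ ≤ 2 ^ n := pow_le_pow_right₀ (by norm_num) (le_trans (le_max_right _ _) hn)
  have hM1 : (1 : ℝ) ≤ 2 ^ n := one_le_pow₀ (by norm_num)
  set M : ℝ := (2 : ℝ) ^ n with hM
  set m : ℝ := (F.card : ℝ) with hm
  have hm0 : 0 ≤ m := Nat.cast_nonneg _
  have hMm : M ≤ m := by
    by_contra hc'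
    rw [not_le] at hc'
    nlinarith
  have hεM : 8 < ε ^ 2 * M := by
    rw [div_lt_iff₀ (by positivity)] at hMge
    linarith
  have hm2M : m ≤ 2 * M := by nlinarith
  -- the set of band members as a set of vertices
  set bd : Finset {A : Finset (Fin (2 * n)) // A ∈ F} := Finset.univ.filter
    (fun a => |((a : Finset (Fin (2 * n))).card : ℝ) - (2 - √2) * n| ≤ η * n) with hbd
  have hbdc : bd.card = (F.filter (fun A => |(A.card : ℝ) - (2 - √2) * n| ≤ η * n)).card := by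
    rw [hbd]
    apply Finset.card_bij (fun (a : {A : Finset (Fin (2 * n)) // A ∈ F}) _ => a.1)
    · intro a ha
      rw [Finset.mem_filter] at ha ⊢
      exact ⟨a.2, ha.2⟩
    · intro a _ b _ hab
      exact Subtype.ext hab
    · intro b hb
      rw [Finset.mem_filter] at hb
      exact ⟨⟨b, hb.1⟩, Finset.mem_filter.mpr ⟨Finset.mem_univ _, hb.2⟩, rfl⟩
  have key : ∀ G : Finset {A : Finset (Fin (2 * n)) // A ∈ F}, bd ⊆ G →
      2 * M ^ 2 - m ≤ (G.card : ℝ) ^ 2 + (m - G.card) ^ 2 + 6 * τ * m ^ 2 := by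
    intro G hG
    have h1 := graph_few (V := {A : Finset (Fin (2 * n)) // A ∈ F}) (Rel ra rb) (fun a b => Rel.symm) G τ hτ hτ1
      (by
        rw [Fintype.card_coe]
        refine le_trans ?_ hfew
        apply Finset.sum_le_sum
        intro a _
        apply Finset.sum_le_sum
        intro b _
        apply Finset.sum_le_sum
        intro c _
        by_cases hh : a ∉ G ∧ (Rel ra rb a b ∧ Rel ra rb b c ∧ Rel ra rb a c)
        · rw [if_pos hh, if_pos]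
          refine ⟨?_, hh.2⟩
          intro hab
          apply hh.1
          apply hG
          rw [hbd, Finset.mem_filter]
          exact ⟨Finset.mem_univ _, hab⟩
        · rw [if_neg hh]
          split_ifs <;> norm_num)
    have h2 : ((Gᶜ).card : ℝ) = m - G.card := by
      have h3 := Finset.card_add_card_compl G
      rw [Fintype.card_coe] at h3
      have h4 : ((G.card + (Gᶜ).card : ℕ) : ℝ) = m := by rw [h3]
      push_cast at h4
      linarith
    rw [h2, Fintype.card_coe] at h1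
    exact le_trans hE h1
  rw [← hbdc]
  by_cases hcase : 2 * bd.card < F.card
  · exfalso
    obtain ⟨G, hG, hGc⟩ := Finset.exists_superset_card_eq (s := bd) (n := (F.card + 1) / 2)
      (by omega) (by rw [Fintype.card_coe]; omega)
    have h1 := key G hG
    have h2 : (2 * (G.card : ℝ) - m) ^ 2 ≤ 1 := by
      have h3 : 2 * G.card = F.card ∨ 2 * G.card = F.card + 1 := by rw [hGc]; omega
      rcases h3 with h3 | h3
      · have h4 : 2 * (G.card : ℝ) = m := by rw [hm]; exact_mod_cast h3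
        rw [h4]; norm_num
      · have h4 : 2 * (G.card : ℝ) = m + 1 := by rw [hm]; exact_mod_cast h3
        rw [h4]; norm_num
    have h5 : (G.card : ℝ) ^ 2 + (m - G.card) ^ 2 = (m ^ 2 + (2 * (G.card : ℝ) - m) ^ 2) / 2 := by ring
    have h6 : m ^ 2 ≤ (4 - 3 * ε) * M ^ 2 := by
      calc m ^ 2 ≤ ((2 - ε) * M) ^ 2 := pow_le_pow_left₀ hm0 hcard 2
        _ = (4 - 4 * ε + ε ^ 2) * M ^ 2 := by ring
        _ ≤ (4 - 3 * ε) * M ^ 2 := mul_le_mul_of_nonneg_right (by linarith) (by positivity)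
    have h7 : m ^ 2 ≤ 4 * M ^ 2 := by nlinarith
    have h8 : 6 * τ * m ^ 2 ≤ 24 * τ * M ^ 2 := by nlinarith
    have h9 : 24 * τ * M ^ 2 ≤ 3 / 4 * ε * M ^ 2 := by
      apply mul_le_mul_of_nonneg_right _ (by positivity)
      rw [hτdef]; linarith
    have h10 : 8 < ε * M := lt_of_lt_of_le hεM (mul_le_mul_of_nonneg_right hεε (by positivity))
    have h11 : 3 / 4 * ε * M ^ 2 ≤ 2 * M + 1 / 2 := by nlinarith
    have h12 : 8 * M ≤ ε * M ^ 2 := by nlinarith
    linarith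
  · rw [not_lt] at hcase
    have h1 := key bd (Finset.Subset.refl _)
    have hg : m ≤ 2 * (bd.card : ℝ) := by
      rw [hm]
      exact_mod_cast hcase
    have h7 : m ^ 2 ≤ 4 * M ^ 2 := by nlinarith
    have h8 : 6 * τ * m ^ 2 ≤ 24 * τ * M ^ 2 := by nlinarith
    have h12 : 8 * M ≤ ε ^ 2 * M ^ 2 := by nlinarith
    have h13 : (2 * M) ^ 2 - m ^ 2 ≤ (2 * (bd.card : ℝ) - m + 2 * ε * M) ^ 2 := by
      have e1 : (2 * (bd.card : ℝ) - m) ^ 2 =
        2 * ((bd.card : ℝ) ^ 2 + (m - bd.card) ^ 2) - m ^ 2 := by ring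
      have e2 : 48 * τ * M ^ 2 = 3 / 2 * ε ^ 2 * M ^ 2 := by rw [hτdef]; ring
      have e3 : (2 * (bd.card : ℝ) - m + 2 * ε * M) ^ 2 = (2 * (bd.card : ℝ) - m) ^ 2 +
        2 * (2 * (bd.card : ℝ) - m) * (2 * ε * M) + 4 * (ε ^ 2 * M ^ 2) := by ring
      have e4 : 0 ≤ 2 * (2 * (bd.card : ℝ) - m) * (2 * ε * M) := by
        have : 0 ≤ 2 * (bd.card : ℝ) - m := by linarith
        positivity
      nlinarith
    have h14 : √((2 * M) ^ 2 - m ^ 2) ≤ 2 * (bd.card : ℝ) - m + 2 * ε * M := by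
      rw [Real.sqrt_le_iff]
      refine ⟨?_, h13⟩
      have : 0 ≤ 2 * ε * M := by positivity
      linarith
    linarith

end Helper650_UB
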